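import Pool.Agent.Helper29.AntiFrob.CastleFinal

/-!
# A quiver with an oriented cycle is not Frobenius
-/

set_option autoImplicit false

namespace Pool.Agent.AFM

open Pool.Agent.Helper29.AntiFrob Polynomial

/-! ### Generic lines -/

/-- injectivity is a generic condition on a line -/
lemma exists_poly_inj {P Q : Type} [AddCommGroup P] [Module ℂ P] [AddCommGroup Q] [Module ℂ Q]
    [FiniteDimensional ℂ P] (f g : P →ₗ[ℂ] Q) (hf : Function.Injective f) :
    ∃ d : ℂ[X], d ≠ 0 ∧ ∀ t : ℂ, d.eval t ≠ 0 → Function.Injective (f + t • g) := by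
  classical
  obtain ⟨L, hL⟩ := f.exists_leftInverse_of_injective (LinearMap.ker_eq_bot.2 hf)
  let b := Module.finBasis ℂ P
  let M : Matrix _ _ ℂ := LinearMap.toMatrix b b (L ∘ₗ g)
  let D : Matrix _ _ ℂ[X] := 1 + (X : ℂ[X]) • M.map (C : ℂ → ℂ[X])
  have hD : ∀ t : ℂ, (D.det).eval t = LinearMap.det (L ∘ₗ (f + t • g)) := by
    intro t
    have e1 : (D.det).eval t = (D.map (eval t)).det := by
      have := RingHom.map_det (evalRingHom t) D
      exact this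
    have e2 : D.map (eval t) = LinearMap.toMatrix b b (L ∘ₗ (f + t • g)) := by
      have e3 : L ∘ₗ (f + t • g) = LinearMap.id + t • (L ∘ₗ g) := by
        rw [LinearMap.comp_add, hL, LinearMap.comp_smul]
      rw [e3, map_add, map_smul, LinearMap.toMatrix_id]
      ext i j
      simp only [D, Matrix.map_apply, Matrix.add_apply, Matrix.smul_apply, smul_eq_mul, eval_add,
        eval_mul, eval_X, eval_C]
      congr 1
      by_cases hij : i = j
      · subst hij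
        simp
      · simp [Matrix.one_apply_ne hij]
    rw [e1, e2, LinearMap.det_toMatrix]
  refine ⟨D.det, ?_, ?_⟩
  · intro h0
    have h1 := hD 0
    rw [h0, zero_smul, add_zero, hL] at h1
    simp at h1
  · intro t ht
    rw [hD] at ht
    have h2 : LinearMap.ker (L ∘ₗ (f + t • g)) = ⊥ := by
      by_contra hne
      exact ht (LinearMap.det_eq_zero_iff_ker_ne_bot.2 hne)
    intro x y hxy
    apply LinearMap.ker_eq_bot.1 h2
    show L ((f + t • g) x) = L ((f + t • g) y)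
    rw [hxy]

/-- matrix coefficients of powers on a line are polynomials -/
lemma exists_poly_pow {P : Type} [AddCommGroup P] [Module ℂ P] (f g : P →ₗ[ℂ] P)
    (φ : P →ₗ[ℂ] ℂ) (k : ℕ) : ∀ v : P, ∃ p : ℂ[X], ∀ t : ℂ, p.eval t = φ (((f + t • g) ^ k) v) := by
  induction k with
  | zero =>
    intro v
    exact ⟨C (φ v), fun t => by simp⟩
  | succ k ih =>
    intro v
    obtain ⟨p, hp⟩ := ih (f v)
    obtain ⟨q, hq⟩ := ih (g v)
    refine ⟨p + X * q, fun t => ?_⟩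
    rw [eval_add, eval_mul, eval_X, hp, hq, pow_succ]
    show _ = φ (((f + t • g) ^ k) ((f + t • g) v))
    rw [LinearMap.add_apply, LinearMap.smul_apply, map_add, map_add, map_smul, map_smul,
      smul_eq_mul]

/-! ### The total operator -/

section

variable {J : Type} [Fintype J] [DecidableEq J] (fr : J → Prop) (V : J → Type)
  [∀ a, AddCommGroup (V a)] [∀ a, Module ℂ (V a)] {T : J → J → Type} [∀ a b, Fintype (T a b)]

/-- the sum of all arrows -/
def tot (Ξ : ∀ j k, T j k → V j →ₗ[ℂ] V k) : (∀ j, V j) →ₗ[ℂ] (∀ j, V j) :=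
  ∑ a, ∑ b, ∑ t : T a b, LinearMap.single ℂ V b ∘ₗ Ξ a b t ∘ₗ LinearMap.proj a

lemma tot_add_smul (Ξ Ξ' : ∀ j k, T j k → V j →ₗ[ℂ] V k) (t : ℂ) :
    tot V (fun j k x => Ξ j k x + t • Ξ' j k x) = tot V Ξ + t • tot V Ξ' := by
  simp only [tot, LinearMap.add_comp, LinearMap.comp_add, LinearMap.smul_comp,
    LinearMap.comp_smul, Finset.sum_add_distrib, Finset.smul_sum]

lemma proj_tot (Ξ : ∀ j k, T j k → V j →ₗ[ℂ] V k) (b : J) :
    LinearMap.proj b ∘ₗ tot V Ξ = ∑ a, ∑ t : T a b, Ξ a b t ∘ₗ LinearMap.proj a := by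
  apply LinearMap.ext
  intro y
  show (tot V Ξ y) b = _
  simp only [tot, LinearMap.sum_apply, LinearMap.comp_apply, LinearMap.proj_apply,
    Finset.sum_apply]
  refine Finset.sum_congr rfl fun a _ => ?_
  rw [Finset.sum_eq_single b]
  · refine Finset.sum_congr rfl fun t _ => ?_
    simp
  · intro c _ hc
    refine Finset.sum_eq_zero fun t _ => ?_
    simp [Pi.single_eq_of_ne (Ne.symm hc)]
  · simp

lemma tot_single (Ξ : ∀ j k, T j k → V j →ₗ[ℂ] V k) (a : J) :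
    tot V Ξ ∘ₗ LinearMap.single ℂ V a = ∑ b, ∑ t : T a b, LinearMap.single ℂ V b ∘ₗ Ξ a b t := by
  apply LinearMap.ext
  intro v
  simp only [tot, LinearMap.sum_apply, LinearMap.comp_apply]
  rw [Finset.sum_eq_single a]
  · refine Finset.sum_congr rfl fun b _ => Finset.sum_congr rfl fun t _ => ?_
    simp
  · intro c _ hc
    refine Finset.sum_eq_zero fun b _ => Finset.sum_eq_zero fun t _ => ?_
    simp [Pi.single_eq_of_ne hc]
  · simp

/-- the blocks of the powers of the total operator are kernel elements -/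
lemma tot_ker (Ξ : ∀ j k, T j k → V j →ₗ[ℂ] V k) (k : ℕ) :
    cMap fr V Ξ (fun a b _ => LinearMap.proj a ∘ₗ ((tot V Ξ) ^ k) ∘ₗ LinearMap.single ℂ V b) = 0 := by
  funext j
  show (∑ c, ∑ t, Ξ c j.1 t ∘ₗ (LinearMap.proj c ∘ₗ ((tot V Ξ) ^ k) ∘ₗ LinearMap.single ℂ V j.1) -
    ∑ c, ∑ t, (LinearMap.proj j.1 ∘ₗ ((tot V Ξ) ^ k) ∘ₗ LinearMap.single ℂ V c) ∘ₗ Ξ j.1 c t) = 0
  have e1 : ∑ c, ∑ t, Ξ c j.1 t ∘ₗ
      (LinearMap.proj c ∘ₗ ((tot V Ξ) ^ k) ∘ₗ LinearMap.single ℂ V j.1) =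
      (LinearMap.proj j.1 ∘ₗ tot V Ξ) ∘ₗ (((tot V Ξ) ^ k) ∘ₗ LinearMap.single ℂ V j.1) := by
    rw [proj_tot]
    apply LinearMap.ext
    intro v
    simp only [LinearMap.sum_apply, LinearMap.comp_apply]
  have e2 : ∑ c, ∑ t, (LinearMap.proj j.1 ∘ₗ ((tot V Ξ) ^ k) ∘ₗ LinearMap.single ℂ V c) ∘ₗ
      Ξ j.1 c t = (LinearMap.proj j.1 ∘ₗ ((tot V Ξ) ^ k)) ∘ₗ
        (tot V Ξ ∘ₗ LinearMap.single ℂ V j.1) := by
    rw [tot_single]
    apply LinearMap.ext
    intro v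
    simp only [LinearMap.sum_apply, LinearMap.comp_apply, map_sum]
  have e3 : tot V Ξ ∘ₗ ((tot V Ξ) ^ k) = ((tot V Ξ) ^ k) ∘ₗ tot V Ξ := by
    have h1 : tot V Ξ * (tot V Ξ) ^ k = (tot V Ξ) ^ k * tot V Ξ := by
      rw [← pow_succ, ← pow_succ']
    exact h1
  rw [e1, e2, sub_eq_zero]
  calc (LinearMap.proj j.1 ∘ₗ tot V Ξ) ∘ₗ (((tot V Ξ) ^ k) ∘ₗ LinearMap.single ℂ V j.1) =
      LinearMap.proj j.1 ∘ₗ (tot V Ξ ∘ₗ ((tot V Ξ) ^ k)) ∘ₗ LinearMap.single ℂ V j.1 := rfl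
    _ = LinearMap.proj j.1 ∘ₗ (((tot V Ξ) ^ k) ∘ₗ tot V Ξ) ∘ₗ LinearMap.single ℂ V j.1 := by
      rw [e3]
    _ = _ := rfl

/-- in a nondegenerate system all closed walks vanish -/
lemma closed_zero (Ξ : ∀ j k, T j k → V j →ₗ[ℂ] V k) (l : NJ fr V)
    (h : ∀ (s : SJ fr V) (x : EJ V T), aMap fr V Ξ s = 0 →
      bbMap fr V l s + cMap fr V Ξ x = 0 → s = 0 ∧ x = 0) (k : ℕ) (a : J) (v : V a) :
    ((tot V Ξ) ^ (k + 1)) (LinearMap.single ℂ V a v) a = 0 := by
  have h1 := h 0 (fun a b _ => LinearMap.proj a ∘ₗ ((tot V Ξ) ^ k) ∘ₗ LinearMap.single ℂ V b)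
    (map_zero _) (by rw [tot_ker, map_zero, add_zero])
  have h2 : ∀ (a b : J) (t : T a b) (v : V b),
      ((tot V Ξ) ^ k) (LinearMap.single ℂ V b v) a = 0 := fun a b t v =>
    LinearMap.congr_fun (congrFun (congrFun (congrFun h1.2 a) b) t) v
  have h3 : tot V Ξ (LinearMap.single ℂ V a v) =
      ∑ b, ∑ t : T a b, LinearMap.single ℂ V b (Ξ a b t v) := by
    have := LinearMap.congr_fun (tot_single V Ξ a) v
    simp only [LinearMap.sum_apply, LinearMap.comp_apply] at this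
    exact this
  rw [pow_succ]
  show ((tot V Ξ) ^ k) (tot V Ξ (LinearMap.single ℂ V a v)) a = 0
  rw [h3]
  simp only [map_sum, Finset.sum_apply]
  exact Finset.sum_eq_zero fun b _ => Finset.sum_eq_zero fun t _ => h2 a b t _

/-- number of walks of length `k` -/
def walks (T : J → J → Type) [∀ a b, Fintype (T a b)] (a : J) : ℕ → J → ℕ
  | 0, b => if a = b then 1 else 0
  | k + 1, b => ∑ c, walks T a k c * Fintype.card (T c b)

lemma walks_pos {a b : J} (h : Relation.TransGen (fun a b => Nonempty (T a b)) a b) :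
    ∃ k, 0 < walks T a (k + 1) b := by
  induction h with
  | single h =>
    rename_i b
    refine ⟨0, ?_⟩
    have h1 : walks T a 1 b = ∑ c, walks T a 0 c * Fintype.card (T c b) := rfl
    rw [h1]
    refine Finset.sum_pos' (fun _ _ => Nat.zero_le _) ⟨a, Finset.mem_univ a, ?_⟩
    have h2 : walks T a 0 a = 1 := if_pos rfl
    rw [h2, one_mul]
    exact Fintype.card_pos_iff.2 h
  | tail _ h ih =>
    rename_i c b _
    obtain ⟨k, hk⟩ := ih
    refine ⟨k + 1, ?_⟩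
    have h1 : walks T a (k + 1 + 1) b = ∑ c, walks T a (k + 1) c * Fintype.card (T c b) := rfl
    rw [h1]
    exact Finset.sum_pos' (fun _ _ => Nat.zero_le _) ⟨c, Finset.mem_univ c,
      Nat.mul_pos hk (Fintype.card_pos_iff.2 h)⟩

lemma tot_walks (φ : ∀ a, V a →ₗ[ℂ] ℂ) (v : ∀ a, V a) (hφ : ∀ a, φ a (v a) = 1) (a : J) (k : ℕ) :
    ∀ b, φ b (((tot V (fun j k (_ : T j k) => (φ j).smulRight (v k))) ^ k)
      (LinearMap.single ℂ V a (v a)) b) = walks T a k b := by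
  induction k with
  | zero =>
    intro b
    rw [pow_zero]
    show φ b ((LinearMap.single ℂ V a (v a)) b) = ((if a = b then 1 else 0 : ℕ) : ℂ)
    by_cases hab : a = b
    · subst hab
      rw [if_pos rfl]
      simp [hφ]
    · rw [if_neg hab]
      simp [Pi.single_eq_of_ne (Ne.symm hab)]
  | succ k ih =>
    intro b
    rw [pow_succ']
    set B := tot V (fun j k (_ : T j k) => (φ j).smulRight (v k)) with hB
    set y := (B ^ k) (LinearMap.single ℂ V a (v a)) with hy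
    show φ b ((B y) b) = ((∑ c, walks T a k c * Fintype.card (T c b) : ℕ) : ℂ)
    have h1 : (B y) b = ∑ c, ∑ _t : T c b, φ c (y c) • v b := by
      have := LinearMap.congr_fun (proj_tot V (fun j k (_ : T j k) => (φ j).smulRight (v k)) b) y
      simp only [LinearMap.sum_apply, LinearMap.comp_apply, LinearMap.proj_apply,
        LinearMap.smulRight_apply] at this
      exact this
    rw [h1, map_sum, Nat.cast_sum]
    refine Finset.sum_congr rfl fun c _ => ?_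
    rw [ih c, Finset.sum_const, Finset.card_univ, map_nsmul, map_smul, hφ, smul_eq_mul, mul_one,
      nsmul_eq_mul, Nat.cast_mul, mul_comm]

/-- A quiver with an oriented cycle is not Frobenius. -/
theorem not_frobG_of_cycle [∀ j, FiniteDimensional ℂ (V j)] (hV : ∀ j, Nontrivial (V j)) (a : J)
    (ha : Relation.TransGen (fun a b => Nonempty (T a b)) a a) : ¬ FrobG fr V T := by
  classical
  rw [frobG_base]
  rintro ⟨Ξ, l, h⟩
  have hex : ∀ j, ∃ (v : V j) (φ : V j →ₗ[ℂ] ℂ), φ v = 1 := by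
    intro j
    obtain ⟨v, hv⟩ := exists_ne (0 : V j)
    obtain ⟨φ, hφ⟩ := Module.Projective.exists_dual_ne_zero ℂ hv
    refine ⟨v, (φ v)⁻¹ • φ, ?_⟩
    rw [LinearMap.smul_apply, smul_eq_mul, inv_mul_cancel₀ hφ]
  choose v φ hφ using hex
  obtain ⟨k, hk⟩ := walks_pos ha
  let Ξ₁ : ∀ j k, T j k → V j →ₗ[ℂ] V k := fun j k _ => (φ j).smulRight (v k)
  let Δ : ∀ j k, T j k → V j →ₗ[ℂ] V k := fun j k t => Ξ₁ j k t - Ξ j k t
  let Ξt : ℂ → ∀ j k, T j k → V j →ₗ[ℂ] V k := fun t j k x => Ξ j k x + t • Δ j k x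
  have hΞ1 : Ξt 1 = Ξ₁ := by
    funext j k x
    show Ξ j k x + (1 : ℂ) • (Ξ₁ j k x - Ξ j k x) = Ξ₁ j k x
    rw [one_smul]
    abel
  let F : (SJ fr V × EJ V T) →ₗ[ℂ] ((∀ j k : J, T j k → V j →ₗ[ℂ] V k) × NJ fr V) :=
    LinearMap.prod (aMap fr V Ξ ∘ₗ LinearMap.fst ℂ _ _)
      (bbMap fr V l ∘ₗ LinearMap.fst ℂ _ _ + cMap fr V Ξ ∘ₗ LinearMap.snd ℂ _ _)
  let F' : (SJ fr V × EJ V T) →ₗ[ℂ] ((∀ j k : J, T j k → V j →ₗ[ℂ] V k) × NJ fr V) :=
    LinearMap.prod (aMap fr V Δ ∘ₗ LinearMap.fst ℂ _ _) (cMap fr V Δ ∘ₗ LinearMap.snd ℂ _ _)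
  have hF : Function.Injective F := by
    rw [← LinearMap.ker_eq_bot, LinearMap.ker_eq_bot']
    rintro ⟨s, x⟩ hsx
    have h1 : aMap fr V Ξ s = 0 := congrArg Prod.fst hsx
    have h2 : bbMap fr V l s + cMap fr V Ξ x = 0 := congrArg Prod.snd hsx
    obtain ⟨h3, h4⟩ := h s x h1 h2
    rw [h3, h4]
    rfl
  have hFt : ∀ (t : ℂ) (s : SJ fr V) (x : EJ V T),
      (F + t • F') (s, x) = (aMap fr V (Ξt t) s, bbMap fr V l s + cMap fr V (Ξt t) x) := by
    intro t s x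
    refine Prod.ext ?_ ?_
    · funext j k y
      show (Ξ j k y ∘ₗ s.1 j - s.1 k ∘ₗ Ξ j k y) + t • (Δ j k y ∘ₗ s.1 j - s.1 k ∘ₗ Δ j k y) =
        (Ξ j k y + t • Δ j k y) ∘ₗ s.1 j - s.1 k ∘ₗ (Ξ j k y + t • Δ j k y)
      simp only [LinearMap.add_comp, LinearMap.comp_add, LinearMap.smul_comp,
        LinearMap.comp_smul, smul_sub]
      abel
    · funext j
      show ((bbMap fr V l s) j + (∑ k, ∑ y, Ξ k j.1 y ∘ₗ x k j.1 y -
          ∑ k, ∑ y, x j.1 k y ∘ₗ Ξ j.1 k y)) + t • (∑ k, ∑ y, Δ k j.1 y ∘ₗ x k j.1 y -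
          ∑ k, ∑ y, x j.1 k y ∘ₗ Δ j.1 k y) =
        (bbMap fr V l s) j + (∑ k, ∑ y, (Ξ k j.1 y + t • Δ k j.1 y) ∘ₗ x k j.1 y -
          ∑ k, ∑ y, x j.1 k y ∘ₗ (Ξ j.1 k y + t • Δ j.1 k y))
      simp only [LinearMap.add_comp, LinearMap.comp_add, LinearMap.smul_comp,
        LinearMap.comp_smul, smul_sub, Finset.sum_add_distrib, Finset.smul_sum]
      abel
  obtain ⟨d, hd0, hd⟩ := exists_poly_inj F F' hF
  obtain ⟨p, hp⟩ := exists_poly_pow (tot V Ξ) (tot V Δ) (φ a ∘ₗ LinearMap.proj a) (k + 1)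
    (LinearMap.single ℂ V a (v a))
  have hp' : ∀ t : ℂ, p.eval t =
      φ a (((tot V (Ξt t)) ^ (k + 1)) (LinearMap.single ℂ V a (v a)) a) := by
    intro t
    rw [hp, ← tot_add_smul]
    rfl
  have hp1 : p.eval 1 ≠ 0 := by
    rw [hp', hΞ1, tot_walks V φ v hφ a (k + 1) a]
    exact_mod_cast hk.ne'
  have hp0 : p ≠ 0 := by
    intro h0
    rw [h0] at hp1
    simp at hp1
  have hpd : d * p ≠ 0 := mul_ne_zero hd0 hp0
  obtain ⟨t, ht⟩ : ∃ t : ℂ, (d * p).eval t ≠ 0 := by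
    by_contra hcon
    push Not at hcon
    exact hpd (Polynomial.funext fun t => by rw [hcon t, eval_zero])
  rw [eval_mul] at ht
  have hdt : d.eval t ≠ 0 := left_ne_zero_of_mul ht
  have hpt : p.eval t ≠ 0 := right_ne_zero_of_mul ht
  have hinj := hd t hdt
  apply hpt
  rw [hp', closed_zero fr V (Ξt t) l ?_ k a (v a), map_zero]
  intro s x h1 h2
  have h3 : (F + t • F') (s, x) = (F + t • F') 0 := by
    rw [hFt, map_zero, h1, h2]
    rfl
  have h4 := hinj h3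
  exact ⟨congrArg Prod.fst h4, congrArg Prod.snd h4⟩

end

end Pool.Agent.AFM
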