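import Pool.Agent.AFM.Inter

/-!
# Moves at an interior vertex, the reduced system
-/

set_option autoImplicit false

namespace Pool.Agent.AFM

open Pool.Agent.Helper29.AntiFrob

section

variable {V W Y U S N A E : Type}
  [AddCommGroup V] [Module ℂ V] [AddCommGroup W] [Module ℂ W] [AddCommGroup Y] [Module ℂ Y]
  [AddCommGroup U] [Module ℂ U] [AddCommGroup S] [Module ℂ S] [AddCommGroup N] [Module ℂ N]
  [AddCommGroup A] [Module ℂ A] [AddCommGroup E] [Module ℂ E]
  {a : S →ₗ[ℂ] A} {ρY : S →ₗ[ℂ] Y →ₗ[ℂ] Y} {ρU : S →ₗ[ℂ] U →ₗ[ℂ] U}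
  {bb : N →ₗ[ℂ] S →ₗ[ℂ] N} {c : E →ₗ[ℂ] N} {τY : (Y →ₗ[ℂ] Y) →ₗ[ℂ] N}
  {τU : (U →ₗ[ℂ] U) →ₗ[ℂ] N}

/-- The large vertex, forward. -/
lemma KSio.big_mp [FiniteDimensional ℂ V] [FiniteDimensional ℂ W] [FiniteDimensional ℂ Y]
    [FiniteDimensional ℂ U]
    (hτY : ∀ P s, τY (P ∘ₗ ρY s - ρY s ∘ₗ P) = bb (τY P) s)
    (hUY : Module.finrank ℂ U ≤ Module.finrank ℂ Y)
    (hdim : Module.finrank ℂ V = Module.finrank ℂ W + Module.finrank ℂ Y)
    {Λ : V →ₗ[ℂ] V} {X : V →ₗ[ℂ] Y} {q : U →ₗ[ℂ] V} {l : N}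
    (h : KSio a ρY ρU bb c τY τU Λ X q l) :
    ∃ (θ : U →ₗ[ℂ] Y) (Λ' : W →ₗ[ℂ] W) (G : W →ₗ[ℂ] Y) (l' : N), Function.Injective θ ∧
      KSred a ρY ρU bb c τY τU θ Λ' G l' := by
  have hX : Function.Surjective X := by
    rcases h.X_inj_or_surj with h1 | h1
    · have hle := LinearMap.finrank_le_finrank_of_injective h1
      exact (LinearMap.injective_iff_surjective_of_finrank_eq_finrank (by omega)).1 h1
    · exact h1
  have hq : Function.Injective q := by
    rcases h.q_inj_or_surj with h1 | h1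
    · exact h1
    · have hle := LinearMap.finrank_le_finrank_of_surjective h1
      exact (LinearMap.injective_iff_surjective_of_finrank_eq_finrank (by omega)).2 h1
  have hθ : Function.Injective (X ∘ₗ q) := by
    rcases h.θ_inj_or_surj hq with h1 | h1
    · exact h1
    · have hle := LinearMap.finrank_le_finrank_of_surjective h1
      exact (LinearMap.injective_iff_surjective_of_finrank_eq_finrank (by omega)).2 h1
  obtain ⟨r, hr⟩ := (X ∘ₗ q).exists_leftInverse_of_injective (LinearMap.ker_eq_bot.2 hθ)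
  have hr' : ∀ u, r (X (q u)) = u := fun u => LinearMap.congr_fun hr u
  obtain ⟨s₀, hs₀⟩ := X.exists_rightInverse_of_surjective (LinearMap.range_eq_top.2 hX)
  have hs₀' : ∀ y, X (s₀ y) = y := fun y => LinearMap.congr_fun hs₀ y
  let σ₀ : Y →ₗ[ℂ] V := s₀ + (q - s₀ ∘ₗ X ∘ₗ q) ∘ₗ r
  have hσ₀ : ∀ y, σ₀ y = s₀ y + (q (r y) - s₀ (X (q (r y)))) := fun y => rfl
  have hσ' : ∀ y, X (σ₀ y) = y := by
    intro y
    rw [hσ₀, map_add, map_sub, hs₀', hs₀', sub_self, add_zero]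
  have hσθ : ∀ u, σ₀ (X (q u)) = q u := by
    intro u
    rw [hσ₀, hr']
    abel
  have hπmem : ∀ v, v - σ₀ (X v) ∈ LinearMap.ker X := by
    intro v
    rw [LinearMap.mem_ker, map_sub, hσ', sub_self]
  let π : V →ₗ[ℂ] LinearMap.ker X :=
    LinearMap.codRestrict (LinearMap.ker X) (LinearMap.id - σ₀ ∘ₗ X) (fun v => hπmem v)
  have hπ : ∀ v, (π v : V) = v - σ₀ (X v) := fun v => rfl
  have hX0 : ∀ w : LinearMap.ker X, X (w : V) = 0 := fun w => w.2
  have hπinc : ∀ w : LinearMap.ker X, π (w : V) = w := by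
    intro w
    apply Subtype.ext
    rw [hπ, hX0, map_zero, sub_zero]
  have hπσ : ∀ y, π (σ₀ y) = 0 := by
    intro y
    apply Subtype.ext
    rw [hπ, hσ', sub_self]
    rfl
  let inc' : LinearMap.ker X →ₗ[ℂ] V := (LinearMap.ker X).subtype
  have hinc : ∀ w, inc' w = (w : V) := fun _ => rfl
  let P : Y →ₗ[ℂ] Y := X ∘ₗ Λ ∘ₗ σ₀
  have hker : KSred (W := LinearMap.ker X) a ρY ρU bb c τY τU (X ∘ₗ q) (π ∘ₗ Λ ∘ₗ inc')
      (X ∘ₗ Λ ∘ₗ inc') (l + τY P) := by
    intro t s x k z h1 h2 h3 h4 h5 h6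
    have h5' : ∀ w, π (Λ (t w : V)) - t (π (Λ (w : V))) = k (X (Λ (w : V))) :=
      fun w => LinearMap.congr_fun h5 w
    let pK : LinearMap.ker X →ₗ[ℂ] U := r ∘ₗ (ρY s ∘ₗ (X ∘ₗ Λ ∘ₗ inc') - (X ∘ₗ Λ ∘ₗ inc') ∘ₗ t)
    have hpK : ∀ w, X (q (pK w)) = ρY s (X (Λ (w : V))) - X (Λ (t w : V)) := by
      intro w
      obtain ⟨u, hu⟩ := h3 w
      have hu' : X (q u) = X (Λ (t w : V)) - ρY s (X (Λ (w : V))) := hu
      have e1 : pK w = r (ρY s (X (Λ (w : V))) - X (Λ (t w : V))) := rfl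
      have e2 : ρY s (X (Λ (w : V))) - X (Λ (t w : V)) = X (q (-u)) := by
        rw [map_neg, map_neg, hu']
        abel
      rw [e1, e2, hr']
    let σ : V →ₗ[ℂ] V := inc' ∘ₗ t ∘ₗ π + inc' ∘ₗ k ∘ₗ X + σ₀ ∘ₗ ρY s ∘ₗ X
    have hσapp : ∀ v, σ v = (t (π v) : V) + (k (X v) : V) + σ₀ (ρY s (X v)) := fun v => rfl
    let p : V →ₗ[ℂ] U := pK ∘ₗ π + z ∘ₗ X
    have hpapp : ∀ v, p v = pK (π v) + z (X v) := fun v => rfl
    have hXσ : ∀ v, X (σ v) = ρY s (X v) := by
      intro v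
      rw [hσapp, map_add, map_add, hX0, hX0, hσ', zero_add, zero_add]
    have hσw : ∀ w : LinearMap.ker X, σ (w : V) = (t w : V) := by
      intro w
      rw [hσapp, hπinc, hX0, map_zero, map_zero, map_zero]
      simp
    have hzero : ∀ w : LinearMap.ker X,
        Λ (σ (w : V)) - σ (Λ (w : V)) + q (p (w : V)) = 0 := by
      intro w
      have e2 : σ (Λ (w : V)) = (t (π (Λ (w : V))) : V) + (k (X (Λ (w : V))) : V) +
          σ₀ (ρY s (X (Λ (w : V)))) := hσapp _
      have e3 : Λ (t w : V) = (π (Λ (t w : V)) : V) + σ₀ (X (Λ (t w : V))) := by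
        rw [hπ]; abel
      have e4 : (π (Λ (t w : V)) : V) - (t (π (Λ (w : V))) : V) = (k (X (Λ (w : V))) : V) := by
        rw [← h5' w]; rfl
      have e5 : q (p (w : V)) = σ₀ (ρY s (X (Λ (w : V)))) - σ₀ (X (Λ (t w : V))) := by
        rw [hpapp, hπinc, hX0, map_zero, add_zero, ← hσθ, hpK, map_sub]
      rw [hσw, e2, e3, e5, ← e4]
      abel
    let m : Y →ₗ[ℂ] V := (Λ ∘ₗ σ - σ ∘ₗ Λ + q ∘ₗ p) ∘ₗ σ₀
    have hm : Λ ∘ₗ σ - σ ∘ₗ Λ = m ∘ₗ X - q ∘ₗ p := by
      have e0 : Λ ∘ₗ σ - σ ∘ₗ Λ + q ∘ₗ p = m ∘ₗ X := by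
        apply LinearMap.ext
        intro v
        have hv : v = (π v : V) + σ₀ (X v) := by rw [hπ]; abel
        have h7 : (Λ ∘ₗ σ - σ ∘ₗ Λ + q ∘ₗ p) (π v : V) = 0 := hzero (π v)
        conv_lhs => rw [hv, map_add, h7, zero_add]
        rfl
      rw [← e0]
      abel
    have hσσ : ∀ y, σ (σ₀ y) = (k y : V) + σ₀ (ρY s y) := by
      intro y
      rw [hσapp, hπσ, hσ', map_zero]
      simp
    have hpσ : ∀ y, p (σ₀ y) = z y := by
      intro y
      rw [hpapp, hπσ, hσ', map_zero, zero_add]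
    have hXm : X ∘ₗ m = ((X ∘ₗ Λ ∘ₗ inc') ∘ₗ k + (X ∘ₗ q) ∘ₗ z) +
        (P ∘ₗ ρY s - ρY s ∘ₗ P) := by
      apply LinearMap.ext
      intro y
      change X (Λ (σ (σ₀ y)) - σ (Λ (σ₀ y)) + q (p (σ₀ y))) =
        (X (Λ (k y : V)) + X (q (z y))) +
          (X (Λ (σ₀ (ρY s y))) - ρY s (X (Λ (σ₀ y))))
      rw [map_add, map_sub, hXσ, hσσ, hpσ, map_add, map_add]
      abel
    have hpq : p ∘ₗ q = z ∘ₗ (X ∘ₗ q) := by
      apply LinearMap.ext
      intro u
      change p (q u) = z (X (q u))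
      rw [← hσθ, hpσ, hσθ]
    have hres := h σ s x m p h1 (by
        apply LinearMap.ext
        intro v
        exact hXσ v)
      (by
        apply LinearMap.ext
        intro u
        change σ (q u) = q (ρU s u)
        have e1 : σ₀ (X (q u)) = q u := hσθ u
        have e2 : ρY s (X (q u)) = X (q (ρU s u)) := LinearMap.congr_fun h2 u
        have e3 : k (X (q u)) = 0 := LinearMap.congr_fun h4 u
        conv_lhs => rw [← e1]
        rw [hσσ, e3, e2, hσθ]
        simp)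
      hm (by
        rw [hXm, hpq, map_add, hτY]
        rw [map_add, LinearMap.add_apply] at h6
        rw [← h6]
        abel)
    refine ⟨?_, hres.2.1, hres.2.2.1, ?_, ?_⟩
    · apply LinearMap.ext
      intro w
      apply Subtype.ext
      rw [← hσw, hres.1]
      rfl
    · apply LinearMap.ext
      intro y
      have e1 := hσσ y
      rw [hres.1, hres.2.1] at e1
      apply Subtype.ext
      simpa using e1.symm
    · apply LinearMap.ext
      intro y
      rw [← hpσ, hres.2.2.2.2]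
      rfl
  have hd := LinearMap.finrank_range_add_finrank_ker X
  rw [LinearMap.range_eq_top.2 hX, finrank_top] at hd
  let e : LinearMap.ker X ≃ₗ[ℂ] W := LinearEquiv.ofFinrankEq _ _ (by omega)
  exact ⟨_, _, _, _, hθ, hker.congr e⟩

/-- The large vertex, backward. -/
lemma KSred.big_mpr [FiniteDimensional ℂ V] [FiniteDimensional ℂ W] [FiniteDimensional ℂ Y]
    (hdim : Module.finrank ℂ V = Module.finrank ℂ W + Module.finrank ℂ Y)
    {θ : U →ₗ[ℂ] Y} {Λ : W →ₗ[ℂ] W} {G : W →ₗ[ℂ] Y} {l : N} (hθ : Function.Injective θ)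
    (h : KSred a ρY ρU bb c τY τU θ Λ G l) :
    ∃ (Λ' : V →ₗ[ℂ] V) (X : V →ₗ[ℂ] Y) (q : U →ₗ[ℂ] V) (l' : N),
      KSio a ρY ρU bb c τY τU Λ' X q l' := by
  have hker : KSio (V := W × Y) a ρY ρU bb c τY τU
      ((LinearMap.prod Λ G) ∘ₗ LinearMap.fst ℂ W Y)
      (LinearMap.snd ℂ W Y) (LinearMap.inr ℂ W Y ∘ₗ θ) l := by
    intro σ s x m p h1 h2 h3 h4 h5
    let t : W →ₗ[ℂ] W := LinearMap.fst ℂ W Y ∘ₗ σ ∘ₗ LinearMap.inl ℂ W Y
    let k : Y →ₗ[ℂ] W := LinearMap.fst ℂ W Y ∘ₗ σ ∘ₗ LinearMap.inr ℂ W Y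
    let z : Y →ₗ[ℂ] U := p ∘ₗ LinearMap.inr ℂ W Y
    have ht : ∀ w, t w = (σ (w, 0)).1 := fun _ => rfl
    have hk : ∀ y, k y = (σ (0, y)).1 := fun _ => rfl
    have h2' : ∀ v, (σ v).2 = ρY s v.2 := fun v => LinearMap.congr_fun h2 v
    have h3' : ∀ u, σ (0, θ u) = (0, θ (ρU s u)) := fun u => LinearMap.congr_fun h3 u
    have hσ : ∀ w y, σ (w, y) = (t w + k y, ρY s y) := by
      intro w y
      have : ((w, y) : W × Y) = (w, 0) + (0, y) := by simp
      refine Prod.ext ?_ (h2' _)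
      rw [this, map_add]
      rfl
    have h4w : ∀ w : W, (Λ (t w), G (t w)) - σ (Λ w, G w) = -((0 : W), θ (p (w, 0))) := by
      intro w
      have h6 := LinearMap.congr_fun h4 (w, (0 : Y))
      have e : (m ∘ₗ LinearMap.snd ℂ W Y - (LinearMap.inr ℂ W Y ∘ₗ θ) ∘ₗ p) (w, (0 : Y)) =
          -((0 : W), θ (p (w, 0))) := by
        simp
      exact h6.trans e
    have h4y : ∀ y : Y, (Λ (k y), G (k y)) = m y - ((0 : W), θ (z y)) := by
      intro y
      have h6 := LinearMap.congr_fun h4 ((0 : W), y)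
      have e : (((LinearMap.prod Λ G) ∘ₗ LinearMap.fst ℂ W Y) ∘ₗ σ -
        σ ∘ₗ ((LinearMap.prod Λ G) ∘ₗ LinearMap.fst ℂ W Y)) ((0 : W), y) =
          (Λ (k y), G (k y)) := by
        simp [k]
        exact map_zero σ
      rw [e] at h6
      exact h6
    have hres := h t s x k z h1
      (by
        apply LinearMap.ext
        intro u
        have := congrArg Prod.snd (h3' u)
        rw [hσ] at this
        exact this)
      (by
        intro w
        have := congrArg Prod.snd (h4w w)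
        rw [hσ] at this
        have h5 : G (t w) - ρY s (G w) = -(θ (p (w, 0))) := this
        rw [h5, ← map_neg]
        exact LinearMap.mem_range_self _ _)
      (by
        apply LinearMap.ext
        intro u
        have := congrArg Prod.fst (h3' u)
        exact this)
      (by
        apply LinearMap.ext
        intro w
        have := congrArg Prod.fst (h4w w)
        rw [hσ] at this
        have h5 : Λ (t w) - (t (Λ w) + k (G w)) = -0 := this
        change Λ (t w) - t (Λ w) = k (G w)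
        rw [neg_zero, sub_eq_zero] at h5
        rw [h5]
        abel)
      (by
        have e1 : G ∘ₗ k + θ ∘ₗ z = LinearMap.snd ℂ W Y ∘ₗ m := by
          apply LinearMap.ext
          intro y
          have := congrArg Prod.snd (h4y y)
          have h5 : G (k y) = (m y).2 - θ (z y) := this
          change G (k y) + θ (z y) = (m y).2
          rw [h5]
          abel
        rw [e1]
        exact h5)
    have hσ0 : σ = 0 := by
      apply LinearMap.ext
      rintro ⟨w, y⟩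
      rw [hσ, hres.1, hres.2.1, hres.2.2.2.1]
      simp
    have hm0 : m = 0 := by
      apply LinearMap.ext
      intro y
      have h7 : m y = ((Λ (k y), G (k y)) : W × Y) + ((0 : W), θ (z y)) := by
        rw [h4y y]
        abel
      rw [h7, hres.2.2.2.1, hres.2.2.2.2]
      apply Prod.ext <;> simp
    refine ⟨hσ0, hres.2.1, hres.2.2.1, hm0, ?_⟩
    apply LinearMap.ext
    rintro ⟨w, y⟩
    have e1 : p (w, 0) = 0 := by
      have := congrArg Prod.snd (h4w w)
      rw [hσ, hres.1, hres.2.1] at this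
      apply hθ
      rw [map_zero]
      simpa using this
    have e2 : p (0, y) = 0 := LinearMap.congr_fun hres.2.2.2.2 y
    have : ((w, y) : W × Y) = (w, 0) + (0, y) := by simp
    rw [this, map_add, e1, e2]
    simp
  let e : (W × Y) ≃ₗ[ℂ] V := LinearEquiv.ofFinrankEq _ _ (by
    rw [Module.finrank_prod, hdim])
  exact ⟨_, _, _, _, hker.congr e⟩

end

end Pool.Agent.AFM
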