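import Pool.Agent.AFM.Inter

/-!
# Moves at an interior vertex, the reduced system for a small vertex
-/

set_option autoImplicit false

namespace Pool.Agent.AFM

open Pool.Agent.Helper29.AntiFrob

section

variable {V W Y U S N A E : Type}
  [AddCommGroup V] [Module ℂ V] [AddCommGroup W] [Module ℂ W] [AddCommGroup Y] [Module ℂ Y]
  [AddCommGroup U] [Module ℂ U] [AddCommGroup S] [Module ℂ S] [AddCommGroup N] [Module ℂ N]
  [AddCommGroup A] [Module ℂ A] [AddCommGroup E] [Module ℂ E]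
  {a : S →ₗ[ℂ] A} {ρY : S →ₗ[ℂ] Y →ₗ[ℂ] Y} {ρU : S →ₗ[ℂ] U →ₗ[ℂ] U}
  {bb : N →ₗ[ℂ] S →ₗ[ℂ] N} {c : E →ₗ[ℂ] N} {τY : (Y →ₗ[ℂ] Y) →ₗ[ℂ] N}
  {τU : (U →ₗ[ℂ] U) →ₗ[ℂ] N}

/-- The small vertex, forward. -/
lemma KSio.small_mp [FiniteDimensional ℂ V] [FiniteDimensional ℂ W] [FiniteDimensional ℂ Y]
    [FiniteDimensional ℂ U]
    (hτY : ∀ P s, τY (P ∘ₗ ρY s - ρY s ∘ₗ P) = bb (τY P) s)
    (hτU : ∀ P s, τU (P ∘ₗ ρU s - ρU s ∘ₗ P) = bb (τU P) s)
    (hUY : Module.finrank ℂ U ≤ Module.finrank ℂ Y)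
    (hdim : Module.finrank ℂ V = Module.finrank ℂ W + Module.finrank ℂ U)
    {Λ : V →ₗ[ℂ] V} {X : V →ₗ[ℂ] Y} {q : U →ₗ[ℂ] V} {l : N}
    (h : KSio a ρY ρU bb c τY τU Λ X q l) :
    ∃ (θ : U →ₗ[ℂ] Y) (Λ' : W →ₗ[ℂ] W) (G : W →ₗ[ℂ] Y) (l' : N), Function.Injective θ ∧
      KSred a ρY ρU bb c τY τU θ Λ' G l' := by
  have hq : Function.Injective q := by
    rcases h.q_inj_or_surj with h1 | h1
    · exact h1
    · have hle := LinearMap.finrank_le_finrank_of_surjective h1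
      exact (LinearMap.injective_iff_surjective_of_finrank_eq_finrank (by omega)).2 h1
  have hθ : Function.Injective (X ∘ₗ q) := by
    rcases h.θ_inj_or_surj hq with h1 | h1
    · exact h1
    · have hle := LinearMap.finrank_le_finrank_of_surjective h1
      exact (LinearMap.injective_iff_surjective_of_finrank_eq_finrank (by omega)).2 h1
  obtain ⟨r, hr⟩ := (X ∘ₗ q).exists_leftInverse_of_injective (LinearMap.ker_eq_bot.2 hθ)
  have hr' : ∀ u, r (X (q u)) = u := fun u => LinearMap.congr_fun hr u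
  obtain ⟨ρ₀, hρ₀⟩ := q.exists_leftInverse_of_injective (LinearMap.ker_eq_bot.2 hq)
  have hρ : ∀ u, ρ₀ (q u) = u := fun u => LinearMap.congr_fun hρ₀ u
  have hπmem : ∀ v, v - q (ρ₀ v) ∈ LinearMap.ker ρ₀ := by
    intro v
    rw [LinearMap.mem_ker, map_sub, hρ, sub_self]
  let π : V →ₗ[ℂ] LinearMap.ker ρ₀ :=
    LinearMap.codRestrict (LinearMap.ker ρ₀) (LinearMap.id - q ∘ₗ ρ₀) (fun v => hπmem v)
  have hπ : ∀ v, (π v : V) = v - q (ρ₀ v) := fun v => rfl
  have hρ0 : ∀ w : LinearMap.ker ρ₀, ρ₀ (w : V) = 0 := fun w => w.2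
  have hπinc : ∀ w : LinearMap.ker ρ₀, π (w : V) = w := by
    intro w
    apply Subtype.ext
    rw [hπ, hρ0, map_zero, sub_zero]
  have hπq : ∀ u, π (q u) = 0 := by
    intro u
    apply Subtype.ext
    rw [hπ, hρ, sub_self]
    rfl
  let inc' : LinearMap.ker ρ₀ →ₗ[ℂ] V := (LinearMap.ker ρ₀).subtype
  let lam : Y →ₗ[ℂ] LinearMap.ker ρ₀ := π ∘ₗ Λ ∘ₗ q ∘ₗ r
  have hlam : ∀ y, lam y = π (Λ (q (r y))) := fun _ => rfl
  let m₀ : Y →ₗ[ℂ] V := inc' ∘ₗ lam
  have hm₀ : ∀ y, m₀ y = (lam y : V) := fun _ => rfl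
  let Λ₁ : V →ₗ[ℂ] V := Λ - m₀ ∘ₗ X
  have hΛ₁ : ∀ v, Λ₁ v = Λ v - (lam (X v) : V) := fun _ => rfl
  let G : LinearMap.ker ρ₀ →ₗ[ℂ] Y := X ∘ₗ inc'
  have hG : ∀ w, G w = X (w : V) := fun _ => rfl
  let Q : U →ₗ[ℂ] U := ρ₀ ∘ₗ Λ₁ ∘ₗ q
  have hQ : ∀ u, Q u = ρ₀ (Λ₁ (q u)) := fun _ => rfl
  have hπΛq : ∀ u, π (Λ₁ (q u)) = 0 := by
    intro u
    rw [hΛ₁, map_sub, hπinc, hlam, hr', sub_self]
  have hΛq : ∀ u, Λ₁ (q u) = q (Q u) := by
    intro u
    have h7 := congrArg Subtype.val (hπΛq u)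
    rw [hπ] at h7
    have h8 : Λ₁ (q u) - q (ρ₀ (Λ₁ (q u))) = 0 := h7
    exact sub_eq_zero.1 h8
  have hker : KSred (W := LinearMap.ker ρ₀) a ρY ρU bb c τY τU (X ∘ₗ q) (π ∘ₗ Λ₁ ∘ₗ inc') G
      (l + τY (X ∘ₗ m₀) + τU Q) := by
    intro t s x k z h1 h2 h3 h4 h5 h6
    have h2' : ∀ u, ρY s (X (q u)) = X (q (ρU s u)) := fun u => LinearMap.congr_fun h2 u
    have h4' : ∀ u, k (X (q u)) = 0 := fun u => LinearMap.congr_fun h4 u
    have h5' : ∀ w, π (Λ₁ (t w : V)) - t (π (Λ₁ (w : V))) = k (X (w : V)) :=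
      fun w => LinearMap.congr_fun h5 w
    let κ : LinearMap.ker ρ₀ →ₗ[ℂ] U := r ∘ₗ (ρY s ∘ₗ G - G ∘ₗ t)
    have hκ : ∀ w, X (q (κ w)) = ρY s (X (w : V)) - X (t w : V) := by
      intro w
      obtain ⟨u, hu⟩ := h3 w
      have hu' : X (q u) = X (t w : V) - ρY s (X (w : V)) := hu
      have e1 : κ w = r (ρY s (X (w : V)) - X (t w : V)) := rfl
      have e2 : ρY s (X (w : V)) - X (t w : V) = X (q (-u)) := by
        rw [map_neg, map_neg, hu']
        abel
      rw [e1, e2, hr']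
    let σ : V →ₗ[ℂ] V := q ∘ₗ ρU s ∘ₗ ρ₀ + (q ∘ₗ κ + inc' ∘ₗ t) ∘ₗ π
    have hσapp : ∀ v, σ v = q (ρU s (ρ₀ v)) + (q (κ (π v)) + (t (π v) : V)) := fun v => rfl
    have hσq : ∀ u, σ (q u) = q (ρU s u) := by
      intro u
      rw [hσapp, hρ, hπq, map_zero, map_zero, map_zero]
      simp
    have hσw : ∀ w : LinearMap.ker ρ₀, σ (w : V) = q (κ w) + (t w : V) := by
      intro w
      rw [hσapp, hπinc, hρ0, map_zero, map_zero, zero_add]
    have hπσ : ∀ v, π (σ v) = t (π v) := by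
      intro v
      rw [hσapp, map_add, map_add, hπq, hπq, hπinc, zero_add, zero_add]
    have hv : ∀ v : V, v = q (ρ₀ v) + (π v : V) := by
      intro v
      rw [hπ]
      abel
    have hXσ : ∀ v, X (σ v) = ρY s (X v) := by
      intro v
      have e1 : ρY s (X v) = ρY s (X (q (ρ₀ v))) + ρY s (X (π v : V)) := by
        conv_lhs => rw [hv v]
        rw [map_add, map_add]
      rw [e1, hσapp, map_add, map_add, hκ, h2']
      abel
    let m' : Y →ₗ[ℂ] V := inc' ∘ₗ k + q ∘ₗ z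
    have hm' : ∀ y, m' y = (k y : V) + q (z y) := fun _ => rfl
    let D : V →ₗ[ℂ] V := m' ∘ₗ X - (Λ₁ ∘ₗ σ - σ ∘ₗ Λ₁)
    have hD : ∀ v, D v = m' (X v) - (Λ₁ (σ v) - σ (Λ₁ v)) := fun _ => rfl
    have hπD : ∀ v, π (D v) = 0 := by
      have e1 : ∀ u, π (D (q u)) = 0 := by
        intro u
        rw [hD, hm', h4', hσq, hΛq, hΛq, hσq]
        simp [hπq]
      have e2 : ∀ w : LinearMap.ker ρ₀, π (D (w : V)) = 0 := by
        intro w
        rw [hD, map_sub, map_sub, hm', map_add, hπinc, hπq, hπσ, hσw, map_add, map_add, hΛq,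
          hπq, zero_add, h5']
        simp
      intro v
      rw [hv v, map_add, map_add, e1, e2, add_zero]
    have hqD : ∀ v, q (ρ₀ (D v)) = D v := by
      intro v
      have h7 := congrArg Subtype.val (hπD v)
      rw [hπ] at h7
      have h8 : D v - q (ρ₀ (D v)) = 0 := h7
      exact (sub_eq_zero.1 h8).symm
    let m : Y →ₗ[ℂ] V := m' + (m₀ ∘ₗ ρY s - σ ∘ₗ m₀)
    have hmapp : ∀ y, m y = m' y + (m₀ (ρY s y) - σ (m₀ y)) := fun _ => rfl
    let p : V →ₗ[ℂ] U := ρ₀ ∘ₗ D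
    have hXm : X ∘ₗ m = (G ∘ₗ k + (X ∘ₗ q) ∘ₗ z) +
        ((X ∘ₗ m₀) ∘ₗ ρY s - ρY s ∘ₗ (X ∘ₗ m₀)) := by
      apply LinearMap.ext
      intro y
      change X (m y) = (X (k y : V) + X (q (z y))) + (X (m₀ (ρY s y)) - ρY s (X (m₀ y)))
      rw [hmapp, hm', map_add, map_add, map_sub, hXσ]
    have hpq : p ∘ₗ q = z ∘ₗ (X ∘ₗ q) - (Q ∘ₗ ρU s - ρU s ∘ₗ Q) := by
      apply LinearMap.ext
      intro u
      change ρ₀ (D (q u)) = z (X (q u)) - (Q (ρU s u) - ρU s (Q u))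
      rw [hD, hm', h4', hσq, hΛq, hΛq, hσq]
      simp [hρ]
    have hres := h σ s x m p h1 (by
        apply LinearMap.ext
        intro v
        exact hXσ v)
      (by
        apply LinearMap.ext
        intro u
        exact hσq u)
      (by
        apply LinearMap.ext
        intro v
        change Λ (σ v) - σ (Λ v) = m (X v) - q (ρ₀ (D v))
        have e1 : Λ (σ v) = Λ₁ (σ v) + m₀ (X (σ v)) := by
          rw [hΛ₁, hm₀]
          abel
        have e2 : Λ v = Λ₁ v + m₀ (X v) := by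
          rw [hΛ₁, hm₀]
          abel
        rw [hqD, hD, hmapp, e1, e2, hXσ, map_add]
        abel)
      (by
        rw [hXm, hpq, map_add, hτY, map_sub, hτU]
        rw [map_add, map_add, LinearMap.add_apply, LinearMap.add_apply] at h6
        rw [← h6]
        abel)
    have ht : t = 0 := by
      apply LinearMap.ext
      intro w
      have e1 := hπσ (w : V)
      rw [hπinc, hres.1] at e1
      rw [← e1]
      simp
    have hkz : ∀ y, (k y : V) + q (z y) = 0 := by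
      intro y
      have e1 : m y = 0 := by rw [hres.2.2.2.1]; rfl
      rw [hmapp, hres.1, hres.2.1, hm'] at e1
      simpa using e1
    refine ⟨ht, hres.2.1, hres.2.2.1, ?_, ?_⟩
    · apply LinearMap.ext
      intro y
      have e1 := congrArg π (hkz y)
      rw [map_add, hπinc, hπq, add_zero, map_zero] at e1
      rw [e1]
      rfl
    · apply LinearMap.ext
      intro y
      have e1 := congrArg ρ₀ (hkz y)
      rw [map_add, hρ, hρ0, zero_add, map_zero] at e1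
      rw [e1]
      rfl
  have hd := LinearMap.finrank_range_add_finrank_ker ρ₀
  have hsurj : LinearMap.range ρ₀ = ⊤ := LinearMap.range_eq_top.2 fun u => ⟨q u, hρ u⟩
  rw [hsurj, finrank_top] at hd
  let e : LinearMap.ker ρ₀ ≃ₗ[ℂ] W := LinearEquiv.ofFinrankEq _ _ (by omega)
  exact ⟨_, _, _, _, hθ, hker.congr e⟩

/-- The small vertex, backward. -/
lemma KSred.small_mpr [FiniteDimensional ℂ V] [FiniteDimensional ℂ W] [FiniteDimensional ℂ U]
    (hdim : Module.finrank ℂ V = Module.finrank ℂ W + Module.finrank ℂ U)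
    {θ : U →ₗ[ℂ] Y} {Λ : W →ₗ[ℂ] W} {G : W →ₗ[ℂ] Y} {l : N} (hθ : Function.Injective θ)
    (h : KSred a ρY ρU bb c τY τU θ Λ G l) :
    ∃ (Λ' : V →ₗ[ℂ] V) (X : V →ₗ[ℂ] Y) (q : U →ₗ[ℂ] V) (l' : N),
      KSio a ρY ρU bb c τY τU Λ' X q l' := by
  have hker : KSio (V := W × U) a ρY ρU bb c τY τU
      (LinearMap.inl ℂ W U ∘ₗ Λ ∘ₗ LinearMap.fst ℂ W U)
      (G ∘ₗ LinearMap.fst ℂ W U + θ ∘ₗ LinearMap.snd ℂ W U) (LinearMap.inr ℂ W U) l := by
    intro σ s x m p h1 h2 h3 h4 h5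
    let t : W →ₗ[ℂ] W := LinearMap.fst ℂ W U ∘ₗ σ ∘ₗ LinearMap.inl ℂ W U
    let κ : W →ₗ[ℂ] U := LinearMap.snd ℂ W U ∘ₗ σ ∘ₗ LinearMap.inl ℂ W U
    let k : Y →ₗ[ℂ] W := LinearMap.fst ℂ W U ∘ₗ m
    let z : Y →ₗ[ℂ] U := LinearMap.snd ℂ W U ∘ₗ m
    have ht : ∀ w, σ (w, 0) = (t w, κ w) := fun _ => rfl
    have hm : ∀ y, m y = (k y, z y) := fun _ => rfl
    have h3' : ∀ u, σ (0, u) = (0, ρU s u) := fun u => LinearMap.congr_fun h3 u
    have h2' : ∀ v : W × U, G (σ v).1 + θ (σ v).2 = ρY s (G v.1 + θ v.2) :=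
      fun v => LinearMap.congr_fun h2 v
    have h4' : ∀ v : W × U, ((Λ (σ v).1, (0 : U)) : W × U) - σ (Λ v.1, 0) =
        m (G v.1 + θ v.2) - (0, p v) := fun v => LinearMap.congr_fun h4 v
    have h2w : ∀ w, G (t w) + θ (κ w) = ρY s (G w) := by
      intro w
      have := h2' (w, 0)
      rw [ht] at this
      simpa using this
    have h2u : ∀ u, θ (ρU s u) = ρY s (θ u) := by
      intro u
      have := h2' (0, u)
      rw [h3'] at this
      simpa using this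
    have h4u : ∀ u, k (θ u) = 0 ∧ z (θ u) = p (0, u) := by
      intro u
      have := h4' (0, u)
      rw [h3', hm] at this
      have e1 := congrArg Prod.fst this
      have e2 := congrArg Prod.snd this
      have e0 : σ ((0 : W), (0 : U)) = 0 := map_zero σ
      simp [e0] at e1 e2
      exact ⟨e1.symm, (sub_eq_zero.1 e2.symm)⟩
    have h4w : ∀ w, Λ (t w) - t (Λ w) = k (G w) ∧ - κ (Λ w) = z (G w) - p (w, 0) := by
      intro w
      have := h4' (w, 0)
      rw [ht, ht, hm] at this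
      have e1 := congrArg Prod.fst this
      have e2 := congrArg Prod.snd this
      simp at e1 e2
      exact ⟨e1, e2⟩
    have hres := h t s x k z h1
      (by
        apply LinearMap.ext
        intro u
        exact (h2u u).symm)
      (by
        intro w
        have h6 : G (t w) - ρY s (G w) = θ (-(κ w)) := by
          rw [← h2w, map_neg]
          abel
        rw [h6]
        exact LinearMap.mem_range_self _ _)
      (by
        apply LinearMap.ext
        intro u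
        exact (h4u u).1)
      (by
        apply LinearMap.ext
        intro w
        exact (h4w w).1)
      (by
        have e1 : (G ∘ₗ LinearMap.fst ℂ W U + θ ∘ₗ LinearMap.snd ℂ W U) ∘ₗ m =
            G ∘ₗ k + θ ∘ₗ z := rfl
        have e2 : p ∘ₗ LinearMap.inr ℂ W U = z ∘ₗ θ := by
          apply LinearMap.ext
          intro u
          exact (h4u u).2.symm
        rw [e1, e2] at h5
        exact h5)
    have hm0 : m = 0 := by
      apply LinearMap.ext
      intro y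
      rw [hm, hres.2.2.2.1, hres.2.2.2.2]
      rfl
    have hκ0 : ∀ w, κ w = 0 := by
      intro w
      apply hθ
      have := h2w w
      rw [hres.1, hres.2.1] at this
      simpa using this
    have hp : ∀ w u, ((w, u) : W × U) = (w, 0) + (0, u) := by
      intro w u
      simp
    refine ⟨?_, hres.2.1, hres.2.2.1, hm0, ?_⟩
    · apply LinearMap.ext
      rintro ⟨w, u⟩
      rw [hp, map_add, ht, h3', hκ0, hres.1, hres.2.1]
      simp
    · apply LinearMap.ext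
      rintro ⟨w, u⟩
      have e1 : p (w, 0) = 0 := by
        have := (h4w w).2
        rw [hκ0, hres.2.2.2.2] at this
        simpa using this
      have e2 : p (0, u) = 0 := by
        rw [← (h4u u).2, hres.2.2.2.2]
        rfl
      rw [hp, map_add, e1, e2]
      simp
  let e : (W × U) ≃ₗ[ℂ] V := LinearEquiv.ofFinrankEq _ _ (by
    rw [Module.finrank_prod, hdim])
  exact ⟨_, _, _, _, hker.congr e⟩

end

end Pool.Agent.AFM
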