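import Pool.Agent.AFM.Split
import Pool.Agent.AFM.Red
import Pool.Agent.AFM.Small

/-!
# Moves at an interior vertex: composite arrows
-/

set_option autoImplicit false

namespace Pool.Agent.AFM

open Pool.Agent.Helper29.AntiFrob

section

variable {J : Type} [Fintype J] (fr : J → Prop) (V : J → Type) [∀ a, AddCommGroup (V a)]
  [∀ a, Module ℂ (V a)] (Qi Qo : J → Type) [∀ j, Fintype (Qi j)] [∀ j, Fintype (Qo j)]
  (T : J → J → Type) [∀ a b, Fintype (T a b)]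
  [DecidableEq J] [∀ j, DecidableEq (Qi j)] [∀ j, DecidableEq (Qo j)]

/-- the arrows `T` and the composite arrows -/
abbrev TC : J → J → Type := fun j k => T j k ⊕ (Qi j × Qo k)

lemma ext_prj (Q : J → Type) {P : Type} [AddCommGroup P] [Module ℂ P] {f g : P →ₗ[ℂ] YY V Q}
    (h : ∀ j t, prj V Q j t ∘ₗ f = prj V Q j t ∘ₗ g) : f = g := by
  apply LinearMap.ext
  intro p
  funext j t
  exact LinearMap.congr_fun (h j t) p

lemma prj_ρ (Q : J → Type) [∀ j, Fintype (Q j)] (s : SJ fr V) (j : J) (t : Q j) :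
    prj V Q j t ∘ₗ ρMap fr V Q s = s.1 j ∘ₗ prj V Q j t := rfl

/-- the kernel condition for the quiver with composite arrows -/
lemma comp_ker_iff (Ξ : ∀ j k, T j k → V j →ₗ[ℂ] V k) (θ : YY V Qi →ₗ[ℂ] YY V Qo)
    (Ξ' : ∀ j k, TC Qi Qo T j k → V j →ₗ[ℂ] V k) (l : NJ fr V)
    (h1 : ∀ j k t, Ξ' j k (Sum.inl t) = Ξ j k t)
    (h2 : ∀ j k ti tq, Ξ' j k (Sum.inr (ti, tq)) = prj V Qo k tq ∘ₗ θ ∘ₗ inj V Qi j ti) :
    (∀ (s : SJ fr V) (x : EJ V (TC Qi Qo T)), aMap fr V Ξ' s = 0 →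
      bbMap fr V l s + cMap fr V Ξ' x = 0 → s = 0 ∧ x = 0) ↔
    ∀ (s : SJ fr V) (x : EJ V T) (z : YY V Qo →ₗ[ℂ] YY V Qi), aMap fr V Ξ s = 0 →
      ρMap fr V Qo s ∘ₗ θ = θ ∘ₗ ρMap fr V Qi s →
      bbMap fr V l s + cMap fr V Ξ x + (τMap fr V Qo (θ ∘ₗ z) - τMap fr V Qi (z ∘ₗ θ)) = 0 →
      s = 0 ∧ x = 0 ∧ z = 0 := by
  have ha : ∀ s : SJ fr V, aMap fr V Ξ' s = 0 ↔ aMap fr V Ξ s = 0 ∧
      ρMap fr V Qo s ∘ₗ θ = θ ∘ₗ ρMap fr V Qi s := by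
    intro s
    constructor
    · intro h
      have h3 : ∀ j k t, Ξ' j k t ∘ₗ s.1 j - s.1 k ∘ₗ Ξ' j k t = 0 := fun j k t =>
        congrFun (congrFun (congrFun h j) k) t
      constructor
      · funext j k t
        have h4 := h3 j k (Sum.inl t)
        rw [h1] at h4
        exact h4
      · apply ext_prj
        intro k tq
        apply ext_inj
        intro j ti
        have h4 := sub_eq_zero.1 (h3 j k (Sum.inr (ti, tq)))
        rw [h2] at h4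
        have e1 : (prj V Qo k tq ∘ₗ (ρMap fr V Qo s ∘ₗ θ)) ∘ₗ inj V Qi j ti =
            s.1 k ∘ₗ (prj V Qo k tq ∘ₗ θ ∘ₗ inj V Qi j ti) := rfl
        have e2 : (prj V Qo k tq ∘ₗ (θ ∘ₗ ρMap fr V Qi s)) ∘ₗ inj V Qi j ti =
            (prj V Qo k tq ∘ₗ θ ∘ₗ inj V Qi j ti) ∘ₗ s.1 j := by
          rw [LinearMap.comp_assoc, LinearMap.comp_assoc, ρ_inj]
          rfl
        rw [e1, e2]
        exact h4.symm
    · rintro ⟨h3, h4⟩
      funext j k t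
      show Ξ' j k t ∘ₗ s.1 j - s.1 k ∘ₗ Ξ' j k t = 0
      rcases t with t | ⟨ti, tq⟩
      · rw [h1]
        exact congrFun (congrFun (congrFun h3 j) k) t
      · rw [h2, sub_eq_zero]
        have e1 : (prj V Qo k tq ∘ₗ (ρMap fr V Qo s ∘ₗ θ)) ∘ₗ inj V Qi j ti =
            s.1 k ∘ₗ (prj V Qo k tq ∘ₗ θ ∘ₗ inj V Qi j ti) := rfl
        have e2 : (prj V Qo k tq ∘ₗ (θ ∘ₗ ρMap fr V Qi s)) ∘ₗ inj V Qi j ti =
            (prj V Qo k tq ∘ₗ θ ∘ₗ inj V Qi j ti) ∘ₗ s.1 j := by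
          rw [LinearMap.comp_assoc, LinearMap.comp_assoc, ρ_inj]
          rfl
        rw [← e1, ← e2, h4]
  have hc : ∀ (x' : EJ V (TC Qi Qo T)) (x : EJ V T) (z : YY V Qo →ₗ[ℂ] YY V Qi),
      (∀ j k t, x' j k (Sum.inl t) = x j k t) →
      (∀ j k ti tq, x' j k (Sum.inr (ti, tq)) = prj V Qi j ti ∘ₗ z ∘ₗ inj V Qo k tq) →
      cMap fr V Ξ' x' = cMap fr V Ξ x + (τMap fr V Qo (θ ∘ₗ z) - τMap fr V Qi (z ∘ₗ θ)) := by
    intro x' x z h3 h4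
    funext j
    show (∑ k, ∑ t, Ξ' k j.1 t ∘ₗ x' k j.1 t - ∑ k, ∑ t, x' j.1 k t ∘ₗ Ξ' j.1 k t) =
      (∑ k, ∑ t, Ξ k j.1 t ∘ₗ x k j.1 t - ∑ k, ∑ t, x j.1 k t ∘ₗ Ξ j.1 k t) +
      (∑ t, prj V Qo j.1 t ∘ₗ (θ ∘ₗ z) ∘ₗ inj V Qo j.1 t -
        ∑ t, prj V Qi j.1 t ∘ₗ (z ∘ₗ θ) ∘ₗ inj V Qi j.1 t)
    have e1 : ∑ k, ∑ t, Ξ' k j.1 t ∘ₗ x' k j.1 t = ∑ k, ∑ t, Ξ k j.1 t ∘ₗ x k j.1 t +
        ∑ t, prj V Qo j.1 t ∘ₗ (θ ∘ₗ z) ∘ₗ inj V Qo j.1 t := by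
      have e2 : ∀ tq : Qo j.1, prj V Qo j.1 tq ∘ₗ (θ ∘ₗ z) ∘ₗ inj V Qo j.1 tq =
          ∑ k, ∑ ti, (prj V Qo j.1 tq ∘ₗ θ ∘ₗ inj V Qi k ti) ∘ₗ
            (prj V Qi k ti ∘ₗ z ∘ₗ inj V Qo j.1 tq) := by
        intro tq
        have e3 := comp_sum_inj V Qi (prj V Qo j.1 tq ∘ₗ θ) (z ∘ₗ inj V Qo j.1 tq)
        exact e3
      simp only [Fintype.sum_sum_type, h1, h3, Finset.sum_add_distrib]
      congr 1
      rw [Finset.sum_congr rfl fun tq _ => e2 tq, Finset.sum_comm]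
      refine Finset.sum_congr rfl fun k _ => ?_
      rw [Fintype.sum_prod_type, Finset.sum_comm]
      refine Finset.sum_congr rfl fun tq _ => Finset.sum_congr rfl fun ti _ => ?_
      rw [h2, h4]
    have e4 : ∑ k, ∑ t, x' j.1 k t ∘ₗ Ξ' j.1 k t = ∑ k, ∑ t, x j.1 k t ∘ₗ Ξ j.1 k t +
        ∑ t, prj V Qi j.1 t ∘ₗ (z ∘ₗ θ) ∘ₗ inj V Qi j.1 t := by
      have e2 : ∀ ti : Qi j.1, prj V Qi j.1 ti ∘ₗ (z ∘ₗ θ) ∘ₗ inj V Qi j.1 ti =
          ∑ k, ∑ tq, (prj V Qi j.1 ti ∘ₗ z ∘ₗ inj V Qo k tq) ∘ₗ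
            (prj V Qo k tq ∘ₗ θ ∘ₗ inj V Qi j.1 ti) := by
        intro ti
        have e3 := comp_sum_inj V Qo (prj V Qi j.1 ti ∘ₗ z) (θ ∘ₗ inj V Qi j.1 ti)
        exact e3
      simp only [Fintype.sum_sum_type, h1, h3, Finset.sum_add_distrib]
      congr 1
      rw [Finset.sum_congr rfl fun ti _ => e2 ti, Finset.sum_comm]
      refine Finset.sum_congr rfl fun k _ => ?_
      rw [Fintype.sum_prod_type]
      refine Finset.sum_congr rfl fun ti _ => Finset.sum_congr rfl fun tq _ => ?_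
      rw [h2, h4]
    rw [e1, e4]
    abel
  constructor
  · intro h s x z h3 h4 h5
    let x' : EJ V (TC Qi Qo T) := fun j k t => Sum.elim (fun t => x j k t)
      (fun p => prj V Qi j p.1 ∘ₗ z ∘ₗ inj V Qo k p.2) t
    have h6 := hc x' x z (fun _ _ _ => rfl) (fun _ _ _ _ => rfl)
    have h7 := h s x' ((ha s).2 ⟨h3, h4⟩) (by rw [h6, ← h5]; abel)
    refine ⟨h7.1, ?_, ?_⟩
    · funext j k t
      exact congrFun (congrFun (congrFun h7.2 j) k) (Sum.inl t)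
    · apply ext_prj
      intro j ti
      apply ext_inj
      intro k tq
      have h8 := congrFun (congrFun (congrFun h7.2 j) k) (Sum.inr (ti, tq))
      rw [LinearMap.comp_zero, LinearMap.zero_comp]
      exact h8
  · intro h s x' h3 h4
    obtain ⟨h5, h6⟩ := (ha s).1 h3
    let z : YY V Qo →ₗ[ℂ] YY V Qi := LinearMap.pi fun j => LinearMap.pi fun ti =>
      ofCoord V Qo (fun k tq => x' j k (Sum.inr (ti, tq)))
    have hz : ∀ j k ti tq, x' j k (Sum.inr (ti, tq)) =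
        prj V Qi j ti ∘ₗ z ∘ₗ inj V Qo k tq := by
      intro j k ti tq
      have e1 : prj V Qi j ti ∘ₗ z ∘ₗ inj V Qo k tq =
          (ofCoord V Qo (fun k tq => x' j k (Sum.inr (ti, tq)))) ∘ₗ inj V Qo k tq := rfl
      rw [e1, ofCoord_inj]
    have h7 := hc x' (fun j k t => x' j k (Sum.inl t)) z (fun _ _ _ => rfl) hz
    have h8 := h s (fun j k t => x' j k (Sum.inl t)) z h5 h6 (by rw [← h4, h7]; abel)
    refine ⟨h8.1, ?_⟩
    funext j k t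
    rcases t with t | ⟨ti, tq⟩
    · exact congrFun (congrFun (congrFun h8.2.1 j) k) t
    · rw [hz, h8.2.2]
      simp

lemma comp_θ_inj_or_surj (Ξ : ∀ j k, T j k → V j →ₗ[ℂ] V k) (θ : YY V Qi →ₗ[ℂ] YY V Qo)
    (l : NJ fr V)
    (h : ∀ (s : SJ fr V) (x : EJ V T) (z : YY V Qo →ₗ[ℂ] YY V Qi), aMap fr V Ξ s = 0 →
      ρMap fr V Qo s ∘ₗ θ = θ ∘ₗ ρMap fr V Qi s →
      bbMap fr V l s + cMap fr V Ξ x + (τMap fr V Qo (θ ∘ₗ z) - τMap fr V Qi (z ∘ₗ θ)) = 0 →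
      s = 0 ∧ x = 0 ∧ z = 0) :
    Function.Injective θ ∨ Function.Surjective θ := by
  by_contra hcon
  obtain ⟨g, hg, h1, h2⟩ := exists_rank_one θ hcon
  have h3 := h 0 0 g (map_zero _) (by simp) (by rw [h1, h2]; simp)
  exact hg h3.2.2

/-- the quiver with composite arrows and the reduced system of size zero -/
lemma frobG_comp [∀ j, FiniteDimensional ℂ (V j)]
    (hUY : Module.finrank ℂ (YY V Qi) ≤ Module.finrank ℂ (YY V Qo)) (W : Type) [AddCommGroup W]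
    [Module ℂ W] [Subsingleton W] :
    FrobG fr V (TC Qi Qo T) ↔ ∃ (Ξ : ∀ j k, T j k → V j →ₗ[ℂ] V k)
      (θ : YY V Qi →ₗ[ℂ] YY V Qo) (Λ : W →ₗ[ℂ] W) (G : W →ₗ[ℂ] YY V Qo) (l : NJ fr V),
      Function.Injective θ ∧
      KSred (aMap fr V Ξ) (ρMap fr V Qo) (ρMap fr V Qi) (bbMap fr V) (cMap fr V Ξ)
        (τMap fr V Qo) (τMap fr V Qi) θ Λ G l := by
  rw [frobG_base]
  constructor
  · rintro ⟨Ξ', l, h⟩
    let θ : YY V Qi →ₗ[ℂ] YY V Qo := LinearMap.pi fun k => LinearMap.pi fun tq =>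
      ofCoord V Qi (fun j ti => Ξ' j k (Sum.inr (ti, tq)))
    have hθ : ∀ j k ti tq, Ξ' j k (Sum.inr (ti, tq)) =
        prj V Qo k tq ∘ₗ θ ∘ₗ inj V Qi j ti := by
      intro j k ti tq
      have e1 : prj V Qo k tq ∘ₗ θ ∘ₗ inj V Qi j ti =
          (ofCoord V Qi (fun j ti => Ξ' j k (Sum.inr (ti, tq)))) ∘ₗ inj V Qi j ti := rfl
      rw [e1, ofCoord_inj]
    have h1 := (comp_ker_iff fr V Qi Qo T (fun j k t => Ξ' j k (Sum.inl t)) θ Ξ' l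
      (fun _ _ _ => rfl) hθ).1 h
    have h2 : Function.Injective θ := by
      rcases comp_θ_inj_or_surj fr V Qi Qo T _ θ l h1 with h3 | h3
      · exact h3
      · have hle := LinearMap.finrank_le_finrank_of_surjective h3
        exact (LinearMap.injective_iff_surjective_of_finrank_eq_finrank (by omega)).2 h3
    refine ⟨fun j k t => Ξ' j k (Sum.inl t), θ, 0, 0, l, h2, ?_⟩
    intro t s x k z h3 h4 _ _ _ h8
    have hk : k = 0 := LinearMap.ext fun y => Subsingleton.elim _ _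
    rw [hk, LinearMap.comp_zero, zero_add] at h8
    have h9 := h1 s x z h3 h4 h8
    exact ⟨LinearMap.ext fun y => Subsingleton.elim _ _, h9.1, h9.2.1, hk, h9.2.2⟩
  · rintro ⟨Ξ, θ, Λ, G, l, _, h⟩
    refine ⟨fun j k t => Sum.elim (fun t => Ξ j k t)
      (fun p => prj V Qo k p.2 ∘ₗ θ ∘ₗ inj V Qi j p.1) t, l, ?_⟩
    refine (comp_ker_iff fr V Qi Qo T Ξ θ _ l (fun _ _ _ => rfl) (fun _ _ _ _ => rfl)).2 ?_
    intro s x z h3 h4 h5
    have h6 := h 0 s x 0 z h3 h4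
      (by
        intro w
        rw [Subsingleton.elim w 0]
        simp)
      (by simp)
      (LinearMap.ext fun y => Subsingleton.elim _ _)
      (by rw [LinearMap.comp_zero, zero_add]; exact h5)
    exact ⟨h6.2.1, h6.2.2.1, h6.2.2.2.2⟩

end

end Pool.Agent.AFM
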