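import Pool.Agent.AFM.TwoClass

/-!
# Components of the quiver off the frozen vertices
-/

set_option autoImplicit false

namespace Pool.Agent.AFM

open Pool.Agent.Helper29.AntiFrob

lemma sum_comp {I M : Type} [Fintype I] [AddCommMonoid M] (P : I → Prop) [Fintype {b // P b}]
    (f : I → M) (hf : ∀ b, ¬ P b → f b = 0) : ∑ b, f b = ∑ b : {b // P b}, f b.1 := by
  classical
  rw [← Finset.sum_filter_add_sum_filter_not Finset.univ P f,
    Finset.sum_eq_zero (s := Finset.univ.filter (fun x => ¬ P x)) (fun b hb =>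
      hf b (Finset.mem_filter.1 hb).2), add_zero]
  exact Finset.sum_subtype _ (fun x => by simp) f

section

variable {I K : Type} [Fintype I] (fr : I → Prop) (V : I → Type)
  [∀ a, AddCommGroup (V a)] [∀ a, Module ℂ (V a)] {T : I → I → Type} [∀ a b, Fintype (T a b)]
  (κ : I → K) [∀ k, Fintype {a : I // fr a ∨ κ a = k}]

/-- restriction to a component -/
lemma frobG_comp_mp (hT : ∀ a b, ¬ fr a → ¬ fr b → κ a ≠ κ b → IsEmpty (T a b))
    (h : FrobG fr V T) (k : K) :
    FrobG (fun a : {a : I // fr a ∨ κ a = k} => fr a.1) (fun a => V a.1)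
      (fun a b => T a.1 b.1) := by
  classical
  obtain ⟨Λ, Ξ, hk⟩ := h
  refine ⟨fun a => Λ a.1, fun a b t => Ξ a.1 b.1 t, ?_⟩
  intro s x h1 h2 h3
  let s' : ∀ a, V a →ₗ[ℂ] V a := fun a => if ha : fr a ∨ κ a = k then s ⟨a, ha⟩ else 0
  let x' : ∀ a b, T a b → V b →ₗ[ℂ] V a := fun a b t =>
    if hab : (fr a ∨ κ a = k) ∧ (fr b ∨ κ b = k) then x ⟨a, hab.1⟩ ⟨b, hab.2⟩ t else 0
  have hs1 : ∀ a (ha : fr a ∨ κ a = k), s' a = s ⟨a, ha⟩ := fun a ha => dif_pos ha
  have hs0 : ∀ a, ¬ (fr a ∨ κ a = k) → s' a = 0 := fun a ha => dif_neg ha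
  have hx1 : ∀ a b (ha : fr a ∨ κ a = k) (hb : fr b ∨ κ b = k) t,
      x' a b t = x ⟨a, ha⟩ ⟨b, hb⟩ t := fun a b ha hb t => dif_pos ⟨ha, hb⟩
  have hx0 : ∀ a b t, ¬ ((fr a ∨ κ a = k) ∧ (fr b ∨ κ b = k)) → x' a b t = 0 :=
    fun a b t hab => dif_neg hab
  have hfr : ∀ a, fr a → s' a = 0 := by
    intro a ha
    rw [hs1 a (Or.inl ha)]
    exact h1 ⟨a, Or.inl ha⟩ ha
  have hout : ∀ a b, (fr a ∨ κ a = k) → ¬ (fr b ∨ κ b = k) → (Nonempty (T a b) ∨
      Nonempty (T b a)) → s' a = 0 := by
    intro a b ha hb hne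
    rcases ha with ha | ha
    · exact hfr a ha
    · rw [not_or] at hb
      by_cases hfa : fr a
      · exact hfr a hfa
      · rcases hne with ⟨⟨t⟩⟩ | ⟨⟨t⟩⟩
        · exact ((hT a b hfa hb.1 (by rw [ha]; exact Ne.symm hb.2)).false t).elim
        · exact ((hT b a hb.1 hfa (by rw [ha]; exact hb.2)).false t).elim
  have hres := hk s' x' hfr
    (by
      intro a b t
      by_cases ha : fr a ∨ κ a = k
      · by_cases hb : fr b ∨ κ b = k
        · rw [hs1 a ha, hs1 b hb]
          exact h2 ⟨a, ha⟩ ⟨b, hb⟩ t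
        · rw [hs0 b hb, hout a b ha hb (Or.inl ⟨t⟩)]
          simp
      · by_cases hb : fr b ∨ κ b = k
        · rw [hs0 a ha, hout b a hb ha (Or.inr ⟨t⟩)]
          simp
        · rw [hs0 a ha, hs0 b hb]
          simp)
    (by
      intro a ha
      by_cases hka : κ a = k
      · have hin : fr a ∨ κ a = k := Or.inr hka
        have h4 := h3 ⟨a, hin⟩ ha
        rw [sum_comp (fun b => fr b ∨ κ b = k) (fun b => ∑ t, x' a b t ∘ₗ Ξ a b t)
          (by
            intro b hb
            refine Finset.sum_eq_zero fun t _ => ?_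
            rw [hx0 a b t (fun h => hb h.2), LinearMap.zero_comp]),
          sum_comp (fun b => fr b ∨ κ b = k) (fun b => ∑ t, Ξ b a t ∘ₗ x' b a t)
          (by
            intro b hb
            refine Finset.sum_eq_zero fun t _ => ?_
            rw [hx0 b a t (fun h => hb h.1), LinearMap.comp_zero])]
        have e1 : ∑ b : {b // fr b ∨ κ b = k}, ∑ t, x' a b.1 t ∘ₗ Ξ a b.1 t =
            ∑ b : {b // fr b ∨ κ b = k}, ∑ t, x ⟨a, hin⟩ b t ∘ₗ Ξ a b.1 t :=
          Finset.sum_congr rfl fun b _ => Finset.sum_congr rfl fun t _ => by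
            rw [hx1 a b.1 hin b.2]
        have e2 : ∑ b : {b // fr b ∨ κ b = k}, ∑ t, Ξ b.1 a t ∘ₗ x' b.1 a t =
            ∑ b : {b // fr b ∨ κ b = k}, ∑ t, Ξ b.1 a t ∘ₗ x b ⟨a, hin⟩ t :=
          Finset.sum_congr rfl fun b _ => Finset.sum_congr rfl fun t _ => by
            rw [hx1 b.1 a b.2 hin]
        rw [e1, e2, hs1 a hin]
        exact h4
      · have hout' : ¬ (fr a ∨ κ a = k) := fun h => h.elim ha hka
        rw [hs0 a hout', Finset.sum_eq_zero (fun b _ => Finset.sum_eq_zero fun t _ => by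
          rw [hx0 a b t (fun h => hout' h.1), LinearMap.zero_comp]),
          Finset.sum_eq_zero (fun b _ => Finset.sum_eq_zero fun t _ => by
          rw [hx0 b a t (fun h => hout' h.2), LinearMap.comp_zero])]
        simp)
  constructor
  · rintro ⟨a, ha⟩
    rw [← hs1 a ha]
    exact hres.1 a
  · rintro ⟨a, ha⟩ ⟨b, hb⟩ t
    rw [← hx1 a b ha hb]
    exact hres.2 a b t

/-- gluing -/
lemma frobG_comp_mpr (hT : ∀ a b, ¬ fr a → ¬ fr b → κ a ≠ κ b → IsEmpty (T a b))
    (hT0 : ∀ a b, fr a → fr b → IsEmpty (T a b))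
    (h : ∀ k, FrobG (fun a : {a : I // fr a ∨ κ a = k} => fr a.1) (fun a => V a.1)
      (fun a b => T a.1 b.1)) : FrobG fr V T := by
  classical
  choose Λ Ξ hk using h
  have hmem : ∀ a b, T a b → ¬ fr a → fr b ∨ κ b = κ a := by
    intro a b t ha
    by_cases hb : fr b
    · exact Or.inl hb
    · by_cases hab : κ b = κ a
      · exact Or.inr hab
      · exact ((hT a b ha hb (Ne.symm hab)).false t).elim
  have hmem' : ∀ a b, T a b → ¬ fr b → fr a ∨ κ a = κ b := by
    intro a b t hb
    by_cases ha : fr a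
    · exact Or.inl ha
    · by_cases hab : κ a = κ b
      · exact Or.inr hab
      · exact ((hT a b ha hb hab).false t).elim
  let Λ' : ∀ a, V a →ₗ[ℂ] V a := fun a => Λ (κ a) ⟨a, Or.inr rfl⟩
  let Ξ' : ∀ a b, T a b → V a →ₗ[ℂ] V b := fun a b t =>
    if ha : ¬ fr a then Ξ (κ a) ⟨a, Or.inr rfl⟩ ⟨b, hmem a b t ha⟩ t
    else if hb : ¬ fr b then Ξ (κ b) ⟨a, hmem' a b t hb⟩ ⟨b, Or.inr rfl⟩ t else 0
  have hΞ : ∀ k (a b : {a : I // fr a ∨ κ a = k}) (t : T a.1 b.1),
      Ξ' a.1 b.1 t = Ξ k a b t := by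
    rintro k ⟨a, ha⟩ ⟨b, hb⟩ t
    by_cases hfa : fr a
    · by_cases hfb : fr b
      · exact ((hT0 a b hfa hfb).false t).elim
      · have hkb : κ b = k := hb.resolve_left hfb
        subst hkb
        have e1 : Ξ' a b t = Ξ (κ b) ⟨a, hmem' a b t hfb⟩ ⟨b, Or.inr rfl⟩ t :=
          (dif_neg (not_not.2 hfa)).trans (dif_pos hfb)
        exact e1
    · have hka : κ a = k := ha.resolve_left hfa
      subst hka
      have e1 : Ξ' a b t = Ξ (κ a) ⟨a, Or.inr rfl⟩ ⟨b, hmem a b t hfa⟩ t := dif_pos hfa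
      exact e1
  refine ⟨Λ', Ξ', ?_⟩
  intro s x h1 h2 h3
  have hres : ∀ k, (∀ a : {a : I // fr a ∨ κ a = k}, s a.1 = 0) ∧
      (∀ (a b : {a : I // fr a ∨ κ a = k}) (t : T a.1 b.1), x a.1 b.1 t = 0) := by
    intro k
    refine hk k (fun a => s a.1) (fun a b t => x a.1 b.1 t) (fun a ha => h1 a.1 ha) ?_ ?_
    · intro a b t
      rw [← hΞ]
      exact h2 a.1 b.1 t
    · rintro ⟨a, ha⟩ hfa
      have hka : κ a = k := ha.resolve_left hfa
      subst hka
      have h4 := h3 a hfa
      rw [sum_comp (fun b => fr b ∨ κ b = κ a) (fun b => ∑ t, x a b t ∘ₗ Ξ' a b t)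
          (by
            intro b hb
            refine Finset.sum_eq_zero fun t _ => ?_
            exact (hb (hmem a b t hfa)).elim),
          sum_comp (fun b => fr b ∨ κ b = κ a) (fun b => ∑ t, Ξ' b a t ∘ₗ x b a t)
          (by
            intro b hb
            refine Finset.sum_eq_zero fun t _ => ?_
            exact (hb (hmem' b a t hfa)).elim)] at h4
      have e1 : ∑ b : {b // fr b ∨ κ b = κ a}, ∑ t, x a b.1 t ∘ₗ Ξ' a b.1 t =
          ∑ b : {b // fr b ∨ κ b = κ a}, ∑ t, x a b.1 t ∘ₗ Ξ (κ a) ⟨a, ha⟩ b t :=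
        Finset.sum_congr rfl fun b _ => Finset.sum_congr rfl fun t _ => by
          rw [← hΞ (κ a) ⟨a, ha⟩ b t]
      have e2 : ∑ b : {b // fr b ∨ κ b = κ a}, ∑ t, Ξ' b.1 a t ∘ₗ x b.1 a t =
          ∑ b : {b // fr b ∨ κ b = κ a}, ∑ t, Ξ (κ a) b ⟨a, ha⟩ t ∘ₗ x b.1 a t :=
        Finset.sum_congr rfl fun b _ => Finset.sum_congr rfl fun t _ => by
          rw [← hΞ (κ a) b ⟨a, ha⟩ t]
      rw [e1, e2] at h4
      exact h4
  constructor
  · intro a
    exact (hres (κ a)).1 ⟨a, Or.inr rfl⟩
  · intro a b t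
    by_cases hfa : fr a
    · by_cases hfb : fr b
      · exact ((hT0 a b hfa hfb).false t).elim
      · exact (hres (κ b)).2 ⟨a, hmem' a b t hfb⟩ ⟨b, Or.inr rfl⟩ t
    · exact (hres (κ a)).2 ⟨a, Or.inr rfl⟩ ⟨b, hmem a b t hfa⟩ t

end

section

variable {ι K : Type} [Fintype ι]

/-- Decomposition into the components off the extra vertex. -/
theorem frob_decomp (κ : ι → K) (n : ι → ℕ) (m : Option ι → Option ι → ℕ)
    (h00 : m none none = 0) (hsep : ∀ i j, κ i ≠ κ j → m (some i) (some j) = 0)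
    [∀ k, Fintype {i : ι // κ i = k}] :
    HasFrobeniusFunctional (SqZero n m) ↔
      ∀ k, HasFrobeniusFunctional (SqZero (fun i : {i : ι // κ i = k} => n i.1)
        (fun a b => m (a.map Subtype.val) (b.map Subtype.val))) := by
  classical
  have key : ∀ k, FrobG (fun a : {a : Option ι // a = none ∨ a.map κ = some k} => a.1 = none)
      (fun a => Fin (size n a.1) → ℂ) (fun a b => Fin (m a.1 b.1)) ↔
      HasFrobeniusFunctional (SqZero (fun i : {i : ι // κ i = k} => n i.1)
        (fun a b => m (a.map Subtype.val) (b.map Subtype.val))) := by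
    intro k
    rw [frobG_iff]
    let ε : Option {i : ι // κ i = k} ≃ {a : Option ι // a = none ∨ a.map κ = some k} :=
      { toFun := fun a => ⟨a.map Subtype.val, by
          cases a with
          | none => exact Or.inl rfl
          | some i => exact Or.inr (congrArg some i.2)⟩
        invFun := fun a => match a with
          | ⟨none, _⟩ => none
          | ⟨some i, hi⟩ => some ⟨i, by
              rcases hi with hi | hi
              · exact absurd hi (by simp)
              · exact Option.some.inj hi⟩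
        left_inv := by
          intro a
          cases a with
          | none => rfl
          | some i => rfl
        right_inv := by
          rintro ⟨a, ha⟩
          cases a with
          | none => rfl
          | some i => rfl }
    refine (FrobG.transport_iff ε ?_ ?_ ?_).symm
    · intro a
      cases a with
      | none => simp [ε]
      | some j => simp [ε]
    · intro a
      cases a with
      | none => rfl
      | some j => rfl
    · intro a b
      rfl
  have hT : ∀ a b : Option ι, ¬ a = none → ¬ b = none → a.map κ ≠ b.map κ →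
      IsEmpty (Fin (m a b)) := by
    intro a b ha hb hab
    obtain ⟨i, rfl⟩ := Option.ne_none_iff_exists'.1 ha
    obtain ⟨j, rfl⟩ := Option.ne_none_iff_exists'.1 hb
    have h1 : κ i ≠ κ j := fun h => hab (congrArg some h)
    rw [hsep i j h1]
    infer_instance
  have hT0 : ∀ a b : Option ι, a = none → b = none → IsEmpty (Fin (m a b)) := by
    rintro a b rfl rfl
    rw [h00]
    infer_instance
  rw [frobG_iff]
  constructor
  · intro h k
    rw [← key k]
    exact frobG_comp_mp (fun a : Option ι => a = none) (fun a => Fin (size n a) → ℂ)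
      (fun a : Option ι => a.map κ) hT h (some k)
  · intro h
    refine frobG_comp_mpr (fun a : Option ι => a = none) (fun a => Fin (size n a) → ℂ)
      (fun a : Option ι => a.map κ) hT hT0 ?_
    intro k
    cases k with
    | some k => exact (key k).2 (h k)
    | none =>
      refine ⟨0, 0, ?_⟩
      intro s x h1 h2 h3
      have hn : ∀ a : {a : Option ι // a = none ∨ a.map κ = none}, a.1 = none := by
        rintro ⟨a, ha⟩
        rcases ha with ha | ha
        · exact ha
        · exact Option.map_eq_none_iff.1 ha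
      constructor
      · intro a
        exact h1 a (hn a)
      · intro a b t
        exact ((hT0 a.1 b.1 (hn a) (hn b)).false t).elim

end

end Pool.Agent.AFM
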