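import Pool.Agent.AFM.Obs

/-!
# The reduction step at an arbitrary factor
-/

set_option autoImplicit false

namespace Pool.Agent.AFM

open Pool.Agent.Helper29.AntiFrob

section

variable {ι : Type} [Fintype ι]

/-- An anti-Frobenius algebra has no oriented cycle in its difference digraph. -/
theorem af_acyclic (n : ι → ℕ) (hn : ∀ j, 0 < n j) (m : Option ι → Option ι → ℕ)
    (h : IsAntiFrobenius (SqZero n m)) (a : Option ι) :
    ¬ Relation.TransGen (fun a b => m b a < m a b) a a := by
  intro ha
  rw [reduction hn] at h
  refine not_frob_of_cycle n hn _ a ?_ h.2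
  have h1 : (fun a b => m b a < m a b) ≤ (fun a b : Option ι => 0 < m a b - m b a) :=
    fun b c h => Nat.sub_pos_of_lt h
  exact Relation.TransGen.mono h1 a a ha

/-- the number of copies joining the extra vertex and a factor -/
theorem af_le (n : ι → ℕ) (hn : ∀ j, 0 < n j) (m : Option ι → Option ι → ℕ)
    (h : IsAntiFrobenius (SqZero n m)) (i : ι) :
    m none (some i) ≤ m (some i) none + n i ∧ m (some i) none ≤ m none (some i) + n i := by
  rw [reduction hn] at h
  have h1 := frob_le n _ i (hn i) h.2
  omega

variable [DecidableEq ι]

lemma upd_pos (n : ι → ℕ) (hn : ∀ j, 0 < n j) (i : ι) (k : ℕ) (hk : 0 < k) :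
    ∀ j, 0 < Function.update n i k j := by
  intro j
  rcases eq_or_ne j i with rfl | hj
  · rw [Function.update_self]; exact hk
  · rw [Function.update_of_ne hj]; exact hn j

/-- (T) -/
theorem af_shift (i : ι) (n : ι → ℕ) (hn : ∀ j, 0 < n j) (m : Option ι → Option ι → ℕ)
    (u v : ℕ) (hu : u = ∑ b, (m b (some i) - m (some i) b) * size n b)
    (hv : v = ∑ b, (m (some i) b - m b (some i)) * size n b) (w : ℕ) (hw : 0 < w) :
    IsAntiFrobenius (SqZero (Function.update n i (v + w)) m) ↔
      IsAntiFrobenius (SqZero (Function.update n i (u + w)) m) := by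
  rw [reduction (upd_pos n hn i _ (by omega)), reduction (upd_pos n hn i _ (by omega))]
  exact and_congr_right fun _ =>
    (moves_fr i n (fun a b => m a b - m b a) (Nat.sub_self _) u v hu hv).1 w

/-- (N) -/
theorem af_never (i : ι) (n : ι → ℕ) (hn : ∀ j, 0 < n j) (m : Option ι → Option ι → ℕ)
    (u v : ℕ) (hu : u = ∑ b, (m b (some i) - m (some i) b) * size n b)
    (hv : v = ∑ b, (m (some i) b - m b (some i)) * size n b) (huv : u = v) (hlt : u < n i) :
    ¬ IsAntiFrobenius (SqZero n m) := by
  rw [reduction hn]
  exact fun h => (moves_fr i n (fun a b => m a b - m b a) (Nat.sub_self _) u v hu hv).2.2 huv hlt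
    h.2

/-- (D) -/
theorem af_delete (i : ι) (n : ι → ℕ) (hn : ∀ j, 0 < n j) (m : Option ι → Option ι → ℕ)
    (u v : ℕ) (hu : u = ∑ b, (m b (some i) - m (some i) b) * size n b)
    (hv : v = ∑ b, (m (some i) b - m b (some i)) * size n b) (hi : n i = u ∨ n i = v)
    (hc : ∀ a b, m (some i) a < m a (some i) → m b (some i) < m (some i) b → m b a ≤ m a b) :
    IsAntiFrobenius (SqZero n m) ↔ Even (m (some i) (some i)) ∧
      IsAntiFrobenius (SqZero (fun j : {j : ι // j ≠ i} => n j)
        (fun a b => m (a.map Subtype.val) (b.map Subtype.val) +
          (m (a.map Subtype.val) (some i) - m (some i) (a.map Subtype.val)) *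
            (m (some i) (b.map Subtype.val) - m (b.map Subtype.val) (some i)))) := by
  rw [reduction hn, reduction (n := fun j : {j : ι // j ≠ i} => n j.1) (fun j => hn j.1),
    (moves_fr i n (fun a b => m a b - m b a) (Nat.sub_self _) u v hu hv).2.1 hi, ← and_assoc]
  have e1 : ∀ x y : ℕ, (x - y) * (y - x) = 0 := by
    intro x y
    rcases le_total x y with h | h
    · rw [Nat.sub_eq_zero_of_le h, zero_mul]
    · rw [Nat.sub_eq_zero_of_le h, mul_zero]
  refine and_congr ?_ ?_
  · constructor
    · intro he
      refine ⟨he _, fun a => ?_⟩
      rw [e1, add_zero]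
      exact he _
    · rintro ⟨he0, he⟩ a
      have he' : ∀ a : Option {j : ι // j ≠ i},
          Even (m (a.map Subtype.val) (a.map Subtype.val)) := by
        intro a
        have := he a
        rw [e1, add_zero] at this
        exact this
      cases a with
      | none => exact he' none
      | some j =>
        rcases eq_or_ne j i with rfl | hj
        · exact he0
        · exact he' (some ⟨j, hj⟩)
  · have e2 : ∀ a b : Option {j : ι // j ≠ i},
        (m (a.map Subtype.val) (b.map Subtype.val) - m (b.map Subtype.val) (a.map Subtype.val)) +
          (m (a.map Subtype.val) (some i) - m (some i) (a.map Subtype.val)) *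
            (m (some i) (b.map Subtype.val) - m (b.map Subtype.val) (some i)) =
        (m (a.map Subtype.val) (b.map Subtype.val) +
          (m (a.map Subtype.val) (some i) - m (some i) (a.map Subtype.val)) *
            (m (some i) (b.map Subtype.val) - m (b.map Subtype.val) (some i))) -
        (m (b.map Subtype.val) (a.map Subtype.val) +
          (m (b.map Subtype.val) (some i) - m (some i) (b.map Subtype.val)) *
            (m (some i) (a.map Subtype.val) - m (a.map Subtype.val) (some i))) := by
      intro a b
      generalize a.map Subtype.val = a'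
      generalize b.map Subtype.val = b'
      have h1 := hc a' b'
      have h2 := hc b' a'
      rcases Nat.eq_zero_or_pos (m a' (some i) - m (some i) a') with h3 | h3
      · rw [h3, zero_mul, add_zero, add_zero]
        rcases Nat.eq_zero_or_pos (m b' (some i) - m (some i) b') with h4 | h4
        · rw [h4, zero_mul, add_zero]
        · rcases Nat.eq_zero_or_pos (m (some i) a' - m a' (some i)) with h5 | h5
          · rw [h5, mul_zero, add_zero]
          · have h6 := h2 (by omega) (by omega)
            rw [Nat.sub_eq_zero_of_le h6, Nat.sub_eq_zero_of_le (by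
              exact h6.trans (Nat.le_add_right _ _))]
      · rcases Nat.eq_zero_or_pos (m (some i) b' - m b' (some i)) with h4 | h4
        · rw [h4, mul_zero, add_zero, add_zero]
          have h5 : m (some i) a' - m a' (some i) = 0 := by omega
          rw [h5, mul_zero, add_zero]
        · have h5 : m (some i) a' - m a' (some i) = 0 := by omega
          have h6 := h1 (by omega) (by omega)
          rw [h5, mul_zero, add_zero]
          omega
    have e3 : (fun (a b : Option {j : ι // j ≠ i}) =>
        (m (a.map Subtype.val) (b.map Subtype.val) - m (b.map Subtype.val) (a.map Subtype.val)) +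
          (m (a.map Subtype.val) (some i) - m (some i) (a.map Subtype.val)) *
            (m (some i) (b.map Subtype.val) - m (b.map Subtype.val) (some i))) =
        fun a b => (m (a.map Subtype.val) (b.map Subtype.val) +
          (m (a.map Subtype.val) (some i) - m (some i) (a.map Subtype.val)) *
            (m (some i) (b.map Subtype.val) - m (b.map Subtype.val) (some i))) -
        (m (b.map Subtype.val) (a.map Subtype.val) +
          (m (b.map Subtype.val) (some i) - m (some i) (b.map Subtype.val)) *
            (m (some i) (a.map Subtype.val) - m (a.map Subtype.val) (some i))) := by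
      funext a b
      exact e2 a b
    rw [e3]

end

end Pool.Agent.AFM
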