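import Pool.Agent.AFM.Comp

/-!
# Moves at an interior vertex: statements for the algebras
-/

set_option autoImplicit false

namespace Pool.Agent.AFM

open Pool.Agent.Helper29.AntiFrob

section

variable {V W Y U S N A E : Type}
  [AddCommGroup V] [Module ℂ V] [AddCommGroup W] [Module ℂ W] [AddCommGroup Y] [Module ℂ Y]
  [AddCommGroup U] [Module ℂ U] [AddCommGroup S] [Module ℂ S] [AddCommGroup N] [Module ℂ N]
  [AddCommGroup A] [Module ℂ A] [AddCommGroup E] [Module ℂ E]
  {a : S →ₗ[ℂ] A} {ρY : S →ₗ[ℂ] Y →ₗ[ℂ] Y} {ρU : S →ₗ[ℂ] U →ₗ[ℂ] U}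
  {bb : N →ₗ[ℂ] S →ₗ[ℂ] N} {c : E →ₗ[ℂ] N} {τY : (Y →ₗ[ℂ] Y) →ₗ[ℂ] N}
  {τU : (U →ₗ[ℂ] U) →ₗ[ℂ] N}

/-- if `U` and `Y` have the same dimension there is no nondegenerate reduced system -/
lemma KSred.false_of_eq [FiniteDimensional ℂ U] [FiniteDimensional ℂ Y] [Nontrivial W]
    (hUY : Module.finrank ℂ U = Module.finrank ℂ Y)
    {θ : U →ₗ[ℂ] Y} {Λ : W →ₗ[ℂ] W} {G : W →ₗ[ℂ] Y} {l : N} (hθ : Function.Injective θ)
    (h : KSred a ρY ρU bb c τY τU θ Λ G l) : False := by
  have hs : Function.Surjective θ :=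
    (LinearMap.injective_iff_surjective_of_finrank_eq_finrank hUY).1 hθ
  have h1 := h LinearMap.id 0 0 0 0 (map_zero a) (by simp)
    (fun w => by
      obtain ⟨u, hu⟩ := hs (G w)
      refine ⟨u, ?_⟩
      rw [hu]
      simp)
    (by simp) (by simp) (by simp)
  obtain ⟨w, hw⟩ := exists_ne (0 : W)
  exact hw (LinearMap.congr_fun h1.1 w)

end

section forms

variable {ι : Type} [Fintype ι] [DecidableEq ι]

lemma io_form (i : ι) (n n' : ι → ℕ) (m : Option ι → Option ι → ℕ)
    (hsize : ∀ a, a ≠ some i → size n' a = size n a)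
    (h0 : m (some i) (some i) = 0) :
    HasFrobeniusFunctional (SqZero n' m) ↔
      FrobG (ofr (fun j : JJ i => j.1 = none))
        (OV (Fin (n' i) → ℂ) (fun j : JJ i => Fin (size n j.1) → ℂ))
        (OTm (fun j : JJ i => Fin (m j.1 (some i))) (fun j : JJ i => Fin (m (some i) j.1))
          (fun j k : JJ i => Fin (m j.1 k.1))) := by
  rw [frobG_iff]
  refine (FrobG.transport_iff (Equiv.optionSubtypeNe (some i)) ?_ ?_ ?_).symm
  · intro a
    cases a with
    | none => simp [ofr]
    | some j => simp [ofr]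
  · intro a
    cases a with
    | none =>
      change Module.finrank ℂ (Fin (n' i) → ℂ) = Module.finrank ℂ (Fin (n' i) → ℂ)
      rfl
    | some j =>
      change Module.finrank ℂ (Fin (size n j.1) → ℂ) = Module.finrank ℂ (Fin (size n' j.1) → ℂ)
      rw [hsize j.1 j.2]
  · intro a b
    cases a with
    | none =>
      cases b with
      | none =>
        change Fintype.card Empty = Fintype.card (Fin (m (some i) (some i)))
        rw [h0]
        rfl
      | some j => rfl
    | some j =>
      cases b with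
      | none => rfl
      | some k => rfl

lemma finrank_in (i : ι) (n : ι → ℕ) (m : Option ι → Option ι → ℕ) (h : m (some i) (some i) = 0) :
    Module.finrank ℂ (YY (fun j : JJ i => Fin (size n j.1) → ℂ)
      (fun j : JJ i => Fin (m j.1 (some i)))) = ∑ b, m b (some i) * size n b := by
  rw [Module.finrank_pi_fintype]
  simp only [Module.finrank_pi_fintype, Module.finrank_fin_fun, Finset.sum_const,
    Finset.card_univ, Fintype.card_fin, smul_eq_mul]
  rw [← Equiv.sum_comp (Equiv.optionSubtypeNe (some i))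
    (fun b => m b (some i) * size n b), Fintype.sum_option]
  simp [h]

/-- the statement `there is a nondegenerate reduced system of size w` -/
def RedOK (i : ι) (n : ι → ℕ) (m : Option ι → Option ι → ℕ) (w : ℕ) : Prop :=
  ∃ (Ξ : ∀ j k : JJ i, Fin (m j.1 k.1) → (Fin (size n j.1) → ℂ) →ₗ[ℂ] (Fin (size n k.1) → ℂ))
    (θ : YY (fun j : JJ i => Fin (size n j.1) → ℂ) (fun j : JJ i => Fin (m j.1 (some i))) →ₗ[ℂ]
      YY (fun j : JJ i => Fin (size n j.1) → ℂ) (fun j : JJ i => Fin (m (some i) j.1)))
    (Λ : (Fin w → ℂ) →ₗ[ℂ] (Fin w → ℂ))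
    (G : (Fin w → ℂ) →ₗ[ℂ]
      YY (fun j : JJ i => Fin (size n j.1) → ℂ) (fun j : JJ i => Fin (m (some i) j.1)))
    (l : NJ (fun j : JJ i => j.1 = none) (fun j : JJ i => Fin (size n j.1) → ℂ)),
    Function.Injective θ ∧
    KSred (aMap (fun j : JJ i => j.1 = none) (fun j : JJ i => Fin (size n j.1) → ℂ) Ξ)
      (ρMap _ _ (fun j : JJ i => Fin (m (some i) j.1)))
      (ρMap _ _ (fun j : JJ i => Fin (m j.1 (some i))))
      (bbMap _ _) (cMap _ _ Ξ) (τMap _ _ (fun j : JJ i => Fin (m (some i) j.1)))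
      (τMap _ _ (fun j : JJ i => Fin (m j.1 (some i)))) θ Λ G l

lemma big_iff (i : ι) (n n' : ι → ℕ) (m : Option ι → Option ι → ℕ) (w : ℕ)
    (hsize : ∀ a, a ≠ some i → size n' a = size n a) (h0 : m (some i) (some i) = 0)
    (hle : ∑ b, m b (some i) * size n b ≤ ∑ b, m (some i) b * size n b)
    (hi : n' i = w + ∑ b, m (some i) b * size n b) :
    HasFrobeniusFunctional (SqZero n' m) ↔ RedOK i n m w := by
  rw [io_form i n n' m hsize h0]
  have hU := finrank_in i n m h0
  have hY := finrank_YY i n m h0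
  have hdim : Module.finrank ℂ (Fin (n' i) → ℂ) = Module.finrank ℂ (Fin w → ℂ) +
      Module.finrank ℂ (YY (fun j : JJ i => Fin (size n j.1) → ℂ)
        (fun j : JJ i => Fin (m (some i) j.1))) := by
    rw [hY, Module.finrank_fin_fun, Module.finrank_fin_fun, hi]
  constructor
  · intro h
    obtain ⟨Ξ, Λ, X, q, l, hk⟩ := frobG_io_mp _ _ _ _ _ _ h
    obtain ⟨θ, Λ', G, l', hθ, hk'⟩ := hk.big_mp (τMap_comm _ _ _) (by rw [hU, hY]; exact hle) hdim
    exact ⟨Ξ, θ, Λ', G, l', hθ, hk'⟩
  · rintro ⟨Ξ, θ, Λ, G, l, hθ, hk⟩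
    apply frobG_io_mpr
    obtain ⟨Λ', X, q, l', hk'⟩ := hk.big_mpr hdim hθ
    exact ⟨Ξ, Λ', X, q, l', hk'⟩

lemma small_iff (i : ι) (n n' : ι → ℕ) (m : Option ι → Option ι → ℕ) (w : ℕ)
    (hsize : ∀ a, a ≠ some i → size n' a = size n a) (h0 : m (some i) (some i) = 0)
    (hle : ∑ b, m b (some i) * size n b ≤ ∑ b, m (some i) b * size n b)
    (hi : n' i = w + ∑ b, m b (some i) * size n b) :
    HasFrobeniusFunctional (SqZero n' m) ↔ RedOK i n m w := by
  rw [io_form i n n' m hsize h0]
  have hU := finrank_in i n m h0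
  have hY := finrank_YY i n m h0
  have hdim : Module.finrank ℂ (Fin (n' i) → ℂ) = Module.finrank ℂ (Fin w → ℂ) +
      Module.finrank ℂ (YY (fun j : JJ i => Fin (size n j.1) → ℂ)
        (fun j : JJ i => Fin (m j.1 (some i)))) := by
    rw [hU, Module.finrank_fin_fun, Module.finrank_fin_fun, hi]
  constructor
  · intro h
    obtain ⟨Ξ, Λ, X, q, l, hk⟩ := frobG_io_mp _ _ _ _ _ _ h
    obtain ⟨θ, Λ', G, l', hθ, hk'⟩ := hk.small_mp (τMap_comm _ _ _) (τMap_comm _ _ _)
      (by rw [hU, hY]; exact hle) hdim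
    exact ⟨Ξ, θ, Λ', G, l', hθ, hk'⟩
  · rintro ⟨Ξ, θ, Λ, G, l, hθ, hk⟩
    apply frobG_io_mpr
    obtain ⟨Λ', X, q, l', hk'⟩ := hk.small_mpr hdim hθ
    exact ⟨Ξ, Λ', X, q, l', hk'⟩

lemma zero_iff (i : ι) (n : ι → ℕ) (m : Option ι → Option ι → ℕ)
    (h0 : m (some i) (some i) = 0)
    (hle : ∑ b, m b (some i) * size n b ≤ ∑ b, m (some i) b * size n b) :
    RedOK i n m 0 ↔ HasFrobeniusFunctional (SqZero (fun j : {j : ι // j ≠ i} => n j)
        (fun a b => m (a.map Subtype.val) (b.map Subtype.val) +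
          m (a.map Subtype.val) (some i) * m (some i) (b.map Subtype.val))) := by
  have hU := finrank_in i n m h0
  have hY := finrank_YY i n m h0
  have h1 := frobG_comp (fun j : JJ i => j.1 = none) (fun j : JJ i => Fin (size n j.1) → ℂ)
    (fun j : JJ i => Fin (m j.1 (some i))) (fun j : JJ i => Fin (m (some i) j.1))
    (fun j k : JJ i => Fin (m j.1 k.1)) (by rw [hU, hY]; exact hle) (Fin 0 → ℂ)
  have h2 : RedOK i n m 0 ↔ FrobG (fun j : JJ i => j.1 = none)
      (fun j : JJ i => Fin (size n j.1) → ℂ)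
      (TC (fun j : JJ i => Fin (m j.1 (some i))) (fun j : JJ i => Fin (m (some i) j.1))
        (fun j k : JJ i => Fin (m j.1 k.1))) := h1.symm
  rw [h2, frobG_iff]
  let ε : Option {j : ι // j ≠ i} ≃ JJ i :=
    { toFun := fun a => ⟨a.map Subtype.val, by
        cases a with
        | none => simp
        | some j => simpa using j.2⟩
      invFun := fun a => match a with
        | ⟨none, _⟩ => none
        | ⟨some j, hj⟩ => some ⟨j, fun h => hj (by rw [h])⟩
      left_inv := by
        intro a
        cases a with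
        | none => rfl
        | some j => rfl
      right_inv := by
        rintro ⟨a, ha⟩
        cases a with
        | none => rfl
        | some j => rfl }
  refine (FrobG.transport_iff ε ?_ ?_ ?_).symm
  · intro a
    cases a with
    | none => simp [ε]
    | some j => simp [ε]
  · intro a
    cases a with
    | none => rfl
    | some j => rfl
  · intro a b
    rw [Fintype.card_fin, Fintype.card_sum, Fintype.card_prod, Fintype.card_fin,
      Fintype.card_fin, Fintype.card_fin]
    rfl

/-- The moves at the factor `i`, for functionals, when the total number of incoming arrows is at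
most that of the outgoing ones. -/
lemma moves_le (i : ι) (n : ι → ℕ) (m : Option ι → Option ι → ℕ)
    (h0 : m (some i) (some i) = 0) (u v : ℕ) (hu : u = ∑ b, m b (some i) * size n b)
    (hv : v = ∑ b, m (some i) b * size n b) (hle : u ≤ v) :
    (∀ w, HasFrobeniusFunctional (SqZero (Function.update n i (v + w)) m) ↔
      HasFrobeniusFunctional (SqZero (Function.update n i (u + w)) m)) ∧
    (n i = u ∨ n i = v → (HasFrobeniusFunctional (SqZero n m) ↔
      HasFrobeniusFunctional (SqZero (fun j : {j : ι // j ≠ i} => n j)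
        (fun a b => m (a.map Subtype.val) (b.map Subtype.val) +
          m (a.map Subtype.val) (some i) * m (some i) (b.map Subtype.val))))) ∧
    (u = v → u < n i → ¬ HasFrobeniusFunctional (SqZero n m)) := by
  subst hu hv
  refine ⟨?_, ?_, ?_⟩
  · intro w
    rw [big_iff i n _ m w (fun a ha => size_update n i _ a ha) h0 hle
      (by rw [Function.update_self, add_comm]),
      small_iff i n _ m w (fun a ha => size_update n i _ a ha) h0 hle
      (by rw [Function.update_self, add_comm])]
  · rintro (hi | hi)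
    · rw [small_iff i n n m 0 (fun _ _ => rfl) h0 hle (by rw [hi, zero_add]), zero_iff i n m h0 hle]
    · rw [big_iff i n n m 0 (fun _ _ => rfl) h0 hle (by rw [hi, zero_add]), zero_iff i n m h0 hle]
  · intro heq hlt h
    obtain ⟨w, hw⟩ := Nat.exists_eq_add_of_lt hlt
    rw [small_iff i n n m (w + 1) (fun _ _ => rfl) h0 hle (by rw [hw]; ring)] at h
    obtain ⟨Ξ, θ, Λ, G, l, hθ, hk⟩ := h
    refine hk.false_of_eq ?_ hθ
    rw [finrank_in i n m h0, finrank_YY i n m h0, heq]

/-- The moves at the factor `i`, for functionals. -/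
lemma moves_fr (i : ι) (n : ι → ℕ) (m : Option ι → Option ι → ℕ)
    (h0 : m (some i) (some i) = 0) (u v : ℕ) (hu : u = ∑ b, m b (some i) * size n b)
    (hv : v = ∑ b, m (some i) b * size n b) :
    (∀ w, HasFrobeniusFunctional (SqZero (Function.update n i (v + w)) m) ↔
      HasFrobeniusFunctional (SqZero (Function.update n i (u + w)) m)) ∧
    (n i = u ∨ n i = v → (HasFrobeniusFunctional (SqZero n m) ↔
      HasFrobeniusFunctional (SqZero (fun j : {j : ι // j ≠ i} => n j)
        (fun a b => m (a.map Subtype.val) (b.map Subtype.val) +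
          m (a.map Subtype.val) (some i) * m (some i) (b.map Subtype.val))))) ∧
    (u = v → u < n i → ¬ HasFrobeniusFunctional (SqZero n m)) := by
  rcases le_total u v with hle | hle
  · exact moves_le i n m h0 u v hu hv hle
  · obtain ⟨h1, h2, h3⟩ := moves_le i n (fun a b => m b a) h0 v u hv hu hle
    refine ⟨?_, ?_, ?_⟩
    · intro w
      rw [frobenius_op_iff, frobenius_op_iff (m := m)]
      exact (h1 w).symm
    · intro hi
      rw [frobenius_op_iff, h2 hi.symm, frobenius_op_iff]
      have e : (fun (a b : Option {j : ι // j ≠ i}) =>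
          m (a.map Subtype.val) (b.map Subtype.val) +
          m (some i) (b.map Subtype.val) * m (a.map Subtype.val) (some i)) =
          (fun a b => m (a.map Subtype.val) (b.map Subtype.val) +
          m (a.map Subtype.val) (some i) * m (some i) (b.map Subtype.val)) := by
        funext a b
        rw [mul_comm (m (some i) (b.map Subtype.val))]
      rw [e]
    · intro heq hlt
      rw [frobenius_op_iff]
      exact h3 heq.symm (heq ▸ hlt)

end forms

end Pool.Agent.AFM
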