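import Pool.Agent.Helper29.AntiFrob.Castle

/-!
# Moves at an interior vertex, linear algebra

`KSio`: the kernel system at a vertex with incoming arrows `q : U → V` and outgoing arrows
`X : V → Y`. `KSred`: the reduced system over `θ = X q`.
-/

set_option autoImplicit false

namespace Pool.Agent.AFM

open Pool.Agent.Helper29.AntiFrob

section

variable {V W Y U S N A E : Type}
  [AddCommGroup V] [Module ℂ V] [AddCommGroup W] [Module ℂ W] [AddCommGroup Y] [Module ℂ Y]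
  [AddCommGroup U] [Module ℂ U] [AddCommGroup S] [Module ℂ S] [AddCommGroup N] [Module ℂ N]
  [AddCommGroup A] [Module ℂ A] [AddCommGroup E] [Module ℂ E]

/-- kernel system, arrows going into and out of the distinguished vertex -/
def KSio (a : S →ₗ[ℂ] A) (ρY : S →ₗ[ℂ] Y →ₗ[ℂ] Y) (ρU : S →ₗ[ℂ] U →ₗ[ℂ] U)
    (bb : N →ₗ[ℂ] S →ₗ[ℂ] N) (c : E →ₗ[ℂ] N) (τY : (Y →ₗ[ℂ] Y) →ₗ[ℂ] N)
    (τU : (U →ₗ[ℂ] U) →ₗ[ℂ] N) (Λ : V →ₗ[ℂ] V) (X : V →ₗ[ℂ] Y) (q : U →ₗ[ℂ] V) (l : N) : Prop :=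
  ∀ (σ : V →ₗ[ℂ] V) (s : S) (x : E) (m : Y →ₗ[ℂ] V) (p : V →ₗ[ℂ] U), a s = 0 →
    X ∘ₗ σ = ρY s ∘ₗ X → σ ∘ₗ q = q ∘ₗ ρU s →
    Λ ∘ₗ σ - σ ∘ₗ Λ = m ∘ₗ X - q ∘ₗ p →
    bb l s + c x + (τY (X ∘ₗ m) - τU (p ∘ₗ q)) = 0 →
    σ = 0 ∧ s = 0 ∧ x = 0 ∧ m = 0 ∧ p = 0

/-- reduced kernel system -/
def KSred (a : S →ₗ[ℂ] A) (ρY : S →ₗ[ℂ] Y →ₗ[ℂ] Y) (ρU : S →ₗ[ℂ] U →ₗ[ℂ] U)
    (bb : N →ₗ[ℂ] S →ₗ[ℂ] N) (c : E →ₗ[ℂ] N) (τY : (Y →ₗ[ℂ] Y) →ₗ[ℂ] N)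
    (τU : (U →ₗ[ℂ] U) →ₗ[ℂ] N) (θ : U →ₗ[ℂ] Y) (Λ : W →ₗ[ℂ] W) (G : W →ₗ[ℂ] Y) (l : N) : Prop :=
  ∀ (t : W →ₗ[ℂ] W) (s : S) (x : E) (k : Y →ₗ[ℂ] W) (z : Y →ₗ[ℂ] U), a s = 0 →
    ρY s ∘ₗ θ = θ ∘ₗ ρU s → (∀ w, G (t w) - ρY s (G w) ∈ LinearMap.range θ) → k ∘ₗ θ = 0 →
    Λ ∘ₗ t - t ∘ₗ Λ = k ∘ₗ G →
    bb l s + c x + (τY (G ∘ₗ k + θ ∘ₗ z) - τU (z ∘ₗ θ)) = 0 →
    t = 0 ∧ s = 0 ∧ x = 0 ∧ k = 0 ∧ z = 0

variable {a : S →ₗ[ℂ] A} {ρY : S →ₗ[ℂ] Y →ₗ[ℂ] Y} {ρU : S →ₗ[ℂ] U →ₗ[ℂ] U}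
  {bb : N →ₗ[ℂ] S →ₗ[ℂ] N} {c : E →ₗ[ℂ] N} {τY : (Y →ₗ[ℂ] Y) →ₗ[ℂ] N}
  {τU : (U →ₗ[ℂ] U) →ₗ[ℂ] N}

/-- a rank one map killing and killed by a map which is neither injective nor surjective -/
lemma exists_rank_one {P Q : Type} [AddCommGroup P] [Module ℂ P] [AddCommGroup Q] [Module ℂ Q]
    (f : P →ₗ[ℂ] Q) (h : ¬ (Function.Injective f ∨ Function.Surjective f)) :
    ∃ g : Q →ₗ[ℂ] P, g ≠ 0 ∧ f ∘ₗ g = 0 ∧ g ∘ₗ f = 0 := by
  rw [not_or] at h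
  obtain ⟨hi, hs⟩ := h
  have hker : LinearMap.ker f ≠ ⊥ := fun h0 => hi (LinearMap.ker_eq_bot.1 h0)
  obtain ⟨v, hv, hv0⟩ := (Submodule.ne_bot_iff _).1 hker
  have hrange : LinearMap.range f ≠ ⊤ := fun h0 => hs (LinearMap.range_eq_top.1 h0)
  obtain ⟨φ, hφ0, hφ⟩ := Submodule.exists_le_ker_of_lt_top _ (lt_top_iff_ne_top.2 hrange)
  have hv' : f v = 0 := hv
  refine ⟨φ.smulRight v, ?_, ?_, ?_⟩
  · intro h0
    apply hφ0
    apply LinearMap.ext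
    intro y
    have h2 := LinearMap.congr_fun h0 y
    rw [LinearMap.smulRight_apply, LinearMap.zero_apply, smul_eq_zero] at h2
    exact h2.resolve_right hv0
  · apply LinearMap.ext
    intro w
    simp [hv']
  · apply LinearMap.ext
    intro w
    have : φ (f w) = 0 := hφ (LinearMap.mem_range_self f w)
    simp [this]

lemma KSio.X_inj_or_surj {Λ : V →ₗ[ℂ] V} {X : V →ₗ[ℂ] Y} {q : U →ₗ[ℂ] V} {l : N}
    (h : KSio a ρY ρU bb c τY τU Λ X q l) : Function.Injective X ∨ Function.Surjective X := by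
  by_contra hcon
  obtain ⟨g, hg, h1, h2⟩ := exists_rank_one X hcon
  have h3 := h 0 0 0 g 0 (map_zero a) (by simp) (by simp) (by rw [h2]; simp)
    (by rw [h1]; simp)
  exact hg h3.2.2.2.1

lemma KSio.q_inj_or_surj {Λ : V →ₗ[ℂ] V} {X : V →ₗ[ℂ] Y} {q : U →ₗ[ℂ] V} {l : N}
    (h : KSio a ρY ρU bb c τY τU Λ X q l) : Function.Injective q ∨ Function.Surjective q := by
  by_contra hcon
  obtain ⟨g, hg, h1, h2⟩ := exists_rank_one q hcon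
  have h3 := h 0 0 0 0 g (map_zero a) (by simp) (by simp) (by rw [h1]; simp)
    (by rw [h2]; simp)
  exact hg h3.2.2.2.2

lemma KSio.θ_inj_or_surj {Λ : V →ₗ[ℂ] V} {X : V →ₗ[ℂ] Y} {q : U →ₗ[ℂ] V} {l : N}
    (h : KSio a ρY ρU bb c τY τU Λ X q l) (hq : Function.Injective q) :
    Function.Injective (X ∘ₗ q) ∨ Function.Surjective (X ∘ₗ q) := by
  by_contra hcon
  obtain ⟨g, hg, h1, h2⟩ := exists_rank_one (X ∘ₗ q) hcon
  have h1' : ∀ y, X (q (g y)) = 0 := fun y => LinearMap.congr_fun h1 y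
  have h2' : ∀ u, g (X (q u)) = 0 := fun u => LinearMap.congr_fun h2 u
  have h3 := h 0 0 0 (q ∘ₗ g) (g ∘ₗ X) (map_zero a) (by simp) (by simp)
    (by
      apply LinearMap.ext
      intro v
      simp)
    (by
      have e1 : X ∘ₗ (q ∘ₗ g) = 0 := LinearMap.ext fun y => h1' y
      have e2 : (g ∘ₗ X) ∘ₗ q = 0 := LinearMap.ext fun u => h2' u
      rw [e1, e2]
      simp)
  apply hg
  apply LinearMap.ext
  intro y
  apply hq
  have := LinearMap.congr_fun h3.2.2.2.1 y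
  simpa using this

/-- transport along an isomorphism -/
lemma KSio.congr {Λ : V →ₗ[ℂ] V} {X : V →ₗ[ℂ] Y} {q : U →ₗ[ℂ] V} {l : N}
    (h : KSio a ρY ρU bb c τY τU Λ X q l) (e : V ≃ₗ[ℂ] W) :
    KSio a ρY ρU bb c τY τU (e.toLinearMap ∘ₗ Λ ∘ₗ e.symm.toLinearMap)
      (X ∘ₗ e.symm.toLinearMap) (e.toLinearMap ∘ₗ q) l := by
  intro σ s x m p h1 h2 h3 h4 h5
  have h6 := h (e.symm.toLinearMap ∘ₗ σ ∘ₗ e.toLinearMap) s x (e.symm.toLinearMap ∘ₗ m)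
    (p ∘ₗ e.toLinearMap) h1
    (by
      apply LinearMap.ext
      intro v
      have := LinearMap.congr_fun h2 (e v)
      simpa using this)
    (by
      apply LinearMap.ext
      intro v
      have := congrArg e.symm (LinearMap.congr_fun h3 v)
      simpa using this)
    (by
      apply LinearMap.ext
      intro v
      have := congrArg e.symm (LinearMap.congr_fun h4 (e v))
      simpa using this)
    h5
  refine ⟨?_, h6.2.1, h6.2.2.1, ?_, ?_⟩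
  · apply LinearMap.ext
    intro v
    have := congrArg e (LinearMap.congr_fun h6.1 (e.symm v))
    simpa using this
  · apply LinearMap.ext
    intro v
    have := congrArg e (LinearMap.congr_fun h6.2.2.2.1 v)
    simpa using this
  · apply LinearMap.ext
    intro v
    have := LinearMap.congr_fun h6.2.2.2.2 (e.symm v)
    simpa using this

/-- transport along an isomorphism -/
lemma KSred.congr {θ : U →ₗ[ℂ] Y} {Λ : V →ₗ[ℂ] V} {G : V →ₗ[ℂ] Y} {l : N}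
    (h : KSred a ρY ρU bb c τY τU θ Λ G l) (e : V ≃ₗ[ℂ] W) :
    KSred a ρY ρU bb c τY τU θ (e.toLinearMap ∘ₗ Λ ∘ₗ e.symm.toLinearMap)
      (G ∘ₗ e.symm.toLinearMap) l := by
  intro t s x k z h1 h2 h3 h4 h5 h6
  have h7 := h (e.symm.toLinearMap ∘ₗ t ∘ₗ e.toLinearMap) s x (e.symm.toLinearMap ∘ₗ k) z h1 h2
    (by
      intro w
      have := h3 (e w)
      simpa using this)
    (by rw [LinearMap.comp_assoc, h4, LinearMap.comp_zero])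
    (by
      apply LinearMap.ext
      intro v
      have := congrArg e.symm (LinearMap.congr_fun h5 (e v))
      simpa using this)
    h6
  refine ⟨?_, h7.2.1, h7.2.2.1, ?_, h7.2.2.2.2⟩
  · apply LinearMap.ext
    intro v
    have := congrArg e (LinearMap.congr_fun h7.1 (e.symm v))
    simpa using this
  · apply LinearMap.ext
    intro v
    have := congrArg e (LinearMap.congr_fun h7.2.2.2.1 v)
    simpa using this

end

end Pool.Agent.AFM
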