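import Pool.Agent.AFM.Form
import Pool.Agent.AFM.Acyc

/-!
# The obstruction at the extra vertex; oriented cycles
-/

set_option autoImplicit false

namespace Pool.Agent.AFM

open Pool.Agent.Helper29.AntiFrob

section

variable {J : Type} [Fintype J] (fr : J → Prop) (V : J → Type)
  [∀ a, AddCommGroup (V a)] [∀ a, Module ℂ (V a)] {T : J → J → Type} [∀ a b, Fintype (T a b)]

theorem frobG_card_le [∀ j, FiniteDimensional ℂ (V j)] (a b : J) (ha : fr a)
    (ha1 : Module.finrank ℂ (V a) = 1) (hb : Nontrivial (V b)) (h : FrobG fr V T) :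
    Fintype.card (T a b) ≤ Module.finrank ℂ (V b) := by
  classical
  rw [frobG_base] at h
  obtain ⟨Ξ, l, h⟩ := h
  by_contra hcon
  have hlt : Module.finrank ℂ (V a →ₗ[ℂ] V b) < Fintype.card (T a b) := by
    rw [Module.finrank_linearMap, ha1, one_mul]
    omega
  have hnot : ¬ LinearIndependent ℂ (fun t : T a b => Ξ a b t) := fun hli =>
    absurd hli.fintype_card_le_finrank (by omega)
  obtain ⟨α, hα, t₀, ht₀⟩ := Fintype.not_linearIndependent_iff.1 hnot
  have hna : Nontrivial (V a) := Module.nontrivial_of_finrank_pos (R := ℂ) (by omega)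
  obtain ⟨v, hv⟩ := exists_ne (0 : V b)
  obtain ⟨w, hw⟩ := exists_ne (0 : V a)
  obtain ⟨φ, hφ⟩ := Module.Projective.exists_dual_ne_zero ℂ hv
  let ψ : V b →ₗ[ℂ] V a := φ.smulRight w
  have hψ : ψ ≠ 0 := by
    intro h0
    have h1 := LinearMap.congr_fun h0 v
    rw [LinearMap.smulRight_apply, LinearMap.zero_apply, smul_eq_zero] at h1
    exact h1.elim hφ hw
  let xa : ∀ k, T a k → V k →ₗ[ℂ] V a :=
    Function.update (β := fun k => T a k → V k →ₗ[ℂ] V a) (fun _ _ => 0) b (fun t => α t • ψ)
  let x : EJ V T := Function.update (β := fun j => ∀ k, T j k → V k →ₗ[ℂ] V j)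
    (fun _ _ _ => 0) a xa
  have hxa : x a = xa := Function.update_self _ _ _
  have hxn : ∀ j, j ≠ a → x j = fun _ _ => 0 := fun j hj => Function.update_of_ne hj _ _
  have hxab : x a b = fun t => α t • ψ := by
    rw [hxa]
    exact Function.update_self _ _ _
  have hxan : ∀ k, k ≠ b → x a k = fun _ => 0 := by
    intro k hk
    rw [hxa]
    exact Function.update_of_ne hk _ _
  have hc : cMap fr V Ξ x = 0 := by
    funext j
    show (∑ k, ∑ t, Ξ k j.1 t ∘ₗ x k j.1 t - ∑ k, ∑ t, x j.1 k t ∘ₗ Ξ j.1 k t) = 0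
    have hja : j.1 ≠ a := fun h1 => j.2 (h1 ▸ ha)
    have e2 : ∑ k, ∑ t, x j.1 k t ∘ₗ Ξ j.1 k t = 0 := by
      refine Finset.sum_eq_zero fun k _ => Finset.sum_eq_zero fun t _ => ?_
      rw [hxn j.1 hja, LinearMap.zero_comp]
    have e1 : ∑ k, ∑ t, Ξ k j.1 t ∘ₗ x k j.1 t = 0 := by
      rw [Finset.sum_eq_single a]
      · by_cases hjb : j.1 = b
        · obtain ⟨j, hj⟩ := j
          subst hjb
          show ∑ t, Ξ a j t ∘ₗ x a j t = 0
          rw [hxab]
          have e3 : ∀ t, Ξ a j t ∘ₗ (α t • ψ) = (α t • Ξ a j t) ∘ₗ ψ := by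
            intro t
            rw [LinearMap.comp_smul, LinearMap.smul_comp]
          rw [Finset.sum_congr rfl fun t _ => e3 t]
          apply LinearMap.ext
          intro y
          have e4 := LinearMap.congr_fun hα (ψ y)
          simp only [LinearMap.sum_apply, LinearMap.comp_apply] at e4 ⊢
          exact e4
        · refine Finset.sum_eq_zero fun t _ => ?_
          rw [hxan j.1 hjb, LinearMap.comp_zero]
      · intro k _ hk
        refine Finset.sum_eq_zero fun t _ => ?_
        rw [hxn k hk, LinearMap.comp_zero]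
      · exact fun h1 => absurd (Finset.mem_univ a) h1
    rw [e1, e2, sub_zero]
  have h1 := h 0 x (map_zero _) (by rw [hc, map_zero, add_zero])
  have h2 : x a b t₀ = 0 := by rw [h1.2]; rfl
  rw [hxab] at h2
  have h3 : α t₀ • ψ = 0 := h2
  rw [smul_eq_zero] at h3
  exact h3.elim ht₀ hψ

end

section

variable {ι : Type} [Fintype ι]

/-- The number of arrows between the extra vertex and a factor is at most the size. -/
theorem frob_le (n : ι → ℕ) (m : Option ι → Option ι → ℕ) (i : ι) (hi : 0 < n i)
    (h : HasFrobeniusFunctional (SqZero n m)) :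
    m none (some i) ≤ n i ∧ m (some i) none ≤ n i := by
  classical
  have key : ∀ m : Option ι → Option ι → ℕ, HasFrobeniusFunctional (SqZero n m) →
      m none (some i) ≤ n i := by
    intro m h
    rw [frobG_iff] at h
    have : Nontrivial (Fin (size n (some i)) → ℂ) := by
      have : Nonempty (Fin (size n (some i))) := ⟨⟨0, hi⟩⟩
      infer_instance
    have h1 := frobG_card_le (fun a : Option ι => a = none) (fun a => Fin (size n a) → ℂ)
      none (some i) rfl (Module.finrank_fin_fun ℂ) this h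
    rw [Fintype.card_fin, Module.finrank_fin_fun] at h1
    exact h1
  exact ⟨key m h, key _ (frobenius_op h)⟩

/-- Oriented cycles. -/
theorem not_frob_of_cycle (n : ι → ℕ) (hn : ∀ i, 0 < n i) (m : Option ι → Option ι → ℕ)
    (a : Option ι) (ha : Relation.TransGen (fun a b => 0 < m a b) a a) :
    ¬ HasFrobeniusFunctional (SqZero n m) := by
  classical
  rw [frobG_iff]
  refine not_frobG_of_cycle _ _ ?_ a ?_
  · intro j
    have : Nonempty (Fin (size n j)) := by
      cases j with
      | none => exact ⟨⟨0, Nat.one_pos⟩⟩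
      | some j => exact ⟨⟨0, hn j⟩⟩
    infer_instance
  · have h1 : (fun a b => 0 < m a b) ≤ (fun a b : Option ι => Nonempty (Fin (m a b))) :=
      fun b c h => ⟨⟨0, h⟩⟩
    exact Relation.TransGen.mono h1 a a ha

end

end Pool.Agent.AFM
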