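import Pool.Agent.AFM.Decomp

/-!
# Factors which interact asymmetrically with at most one other factor
-/

set_option autoImplicit false

namespace Pool.Agent.AFM

open Pool.Agent.Helper29.AntiFrob

lemma fr_pair {ι : Type} [Fintype ι] (i j : ι) (hij : i ≠ j) (hall : ∀ l, l = i ∨ l = j)
    (n : ι → ℕ) (m : Option ι → Option ι → ℕ) (hd : ∀ a, m a a = 0) :
    HasFrobeniusFunctional (SqZero n m) ↔ Fr (m none (some i)) (m (some i) none)
      (m none (some j)) (m (some j) none) (m (some i) (some j)) (m (some j) (some i))
      (n i) (n j) := by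
  unfold Fr
  rw [frobG_iff, frobG_iff]
  let g : Option (Fin 2) → Option ι := fun a => match a with
    | none => none
    | some k => if k = 0 then some i else some j
  have h0 : g none = none := rfl
  have h1 : g (some 0) = some i := rfl
  have h2 : g (some 1) = some j := rfl
  have hg : Function.Bijective g := by
    constructor
    · intro a b hab
      rcases a with _ | a
      · rcases b with _ | b
        · rfl
        · fin_cases b
          · exact absurd hab (by rw [h0, show g (some ⟨0, by decide⟩) = some i from rfl]; simp)
          · exact absurd hab (by rw [h0, show g (some ⟨1, by decide⟩) = some j from rfl]; simp)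
      · rcases b with _ | b
        · fin_cases a
          · exact absurd hab (by rw [h0, show g (some ⟨0, by decide⟩) = some i from rfl]; simp)
          · exact absurd hab (by rw [h0, show g (some ⟨1, by decide⟩) = some j from rfl]; simp)
        · fin_cases a <;> fin_cases b
          · rfl
          · exact absurd (Option.some.inj hab) hij
          · exact absurd (Option.some.inj hab) (Ne.symm hij)
          · rfl
    · intro a
      rcases a with _ | l
      · exact ⟨none, rfl⟩
      · rcases hall l with rfl | rfl
        · exact ⟨some 0, rfl⟩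
        · exact ⟨some 1, rfl⟩
  refine (FrobG.transport_iff (Equiv.ofBijective g hg) ?_ ?_ ?_).symm
  · intro a
    show a = none ↔ g a = none
    rcases a with _ | a
    · exact ⟨fun _ => rfl, fun _ => rfl⟩
    · fin_cases a
      · show some _ = none ↔ some i = none
        simp
      · show some _ = none ↔ some j = none
        simp
  · intro a
    rw [Module.finrank_fin_fun, Module.finrank_fin_fun]
    rcases a with _ | i
    · rfl
    · fin_cases i <;> rfl
  · intro a b
    rw [Fintype.card_fin, Fintype.card_fin]
    rcases a with _ | a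
    · rcases b with _ | b
      · exact (hd none).symm
      · fin_cases b <;> rfl
    · rcases b with _ | b
      · fin_cases a <;> rfl
      · fin_cases a <;> fin_cases b
        · exact (hd (some i)).symm
        · rfl
        · rfl
        · exact (hd (some j)).symm

/-- The numerical condition for a pair of factors. -/
def PairCond (c d : ℤ) (x y : ℕ) : Prop :=
  ¬ (0 < c ∧ d < 0) ∧ ∃ p q r s : ℕ, x = p * c.natAbs + q * d.natAbs ∧
    y = r * c.natAbs + s * d.natAbs ∧
    (p * s - q * r : ℤ) = (if d < 0 then -1 else 1) * r - (if 0 < c then 1 else -1) * q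

lemma not_fr_cycle (c d x y : ℕ) (hc : 0 < c) (hd : 0 < d) (hx : 0 < x) (hy : 0 < y) :
    ¬ Fr c 0 0 d 1 0 x y := by
  refine not_frob_of_cycle (![x, y] : Fin 2 → ℕ) ?_ _ none ?_
  · intro i
    fin_cases i
    · exact hx
    · exact hy
  · have h1 : 0 < MM c 0 0 d 1 0 none (some 0) := hc
    have h2 : 0 < MM c 0 0 d 1 0 (some 0) (some 1) := Nat.one_pos
    have h3 : 0 < MM c 0 0 d 1 0 (some 1) none := hd
    have h4 : Relation.TransGen (fun a b => 0 < MM c 0 0 d 1 0 a b) none (some 0) :=
      Relation.TransGen.single h1
    exact (h4.tail h2).tail h3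

theorem fr_pairCond (a b a' b' x y : ℕ) (hx : 0 < x) (hy : 0 < y) :
    Fr (a - b) (b - a) (a' - b') (b' - a') 1 0 x y ↔
      PairCond ((a : ℤ) - b) ((a' : ℤ) - b') x y := by
  unfold PairCond
  rcases Nat.lt_or_ge b a with h1 | h1
  · have e1 : b - a = 0 := by omega
    have e2 : ((a : ℤ) - b).natAbs = a - b := by omega
    have e3 : 0 < (a : ℤ) - b := by omega
    rcases Nat.lt_or_ge a' b' with h2 | h2
    · have e4 : a' - b' = 0 := by omega
      have e5 : (a' : ℤ) - b' < 0 := by omega
      rw [e1, e4]
      exact ⟨fun h => absurd h (not_fr_cycle _ _ x y (by omega) (by omega) hx hy),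
        fun h => absurd ⟨e3, e5⟩ h.1⟩
    · have e4 : b' - a' = 0 := by omega
      have e5 : ¬ (a' : ℤ) - b' < 0 := by omega
      have e6 : ((a' : ℤ) - b').natAbs = a' - b' := by omega
      rw [e1, e4, e2, e6, if_neg e5, if_pos e3]
      rw [show Fr (a - b) 0 (a' - b') 0 1 0 x y ↔ PI (a - b) (a' - b') x y from I_iff _ _ _ _]
      constructor
      · rintro ⟨p, q, r, s, h3, h4, h5⟩
        refine ⟨fun h => e5 h.2, p, q, r, s, h3, h4, ?_⟩
        have h6 : ((p * s + q : ℕ) : ℤ) = ((q * r + r : ℕ) : ℤ) := by rw [h5]
        push_cast at h6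
        linarith
      · rintro ⟨-, p, q, r, s, h3, h4, h5⟩
        refine ⟨p, q, r, s, h3, h4, ?_⟩
        have h6 : ((p * s + q : ℕ) : ℤ) = ((q * r + r : ℕ) : ℤ) := by
          push_cast
          linarith
        exact_mod_cast h6
  · have e1 : a - b = 0 := by omega
    have e2 : ((a : ℤ) - b).natAbs = b - a := by omega
    have e3 : ¬ 0 < (a : ℤ) - b := by omega
    rcases Nat.lt_or_ge a' b' with h2 | h2
    · have e4 : a' - b' = 0 := by omega
      have e5 : (a' : ℤ) - b' < 0 := by omega
      have e6 : ((a' : ℤ) - b').natAbs = b' - a' := by omega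
      rw [e1, e4, e2, e6, if_pos e5, if_neg e3]
      rw [show Fr 0 (b - a) 0 (b' - a') 1 0 x y ↔ PI (b' - a') (b - a) y x from
        III_iff' _ _ _ _]
      constructor
      · rintro ⟨p, q, r, s, h3, h4, h5⟩
        refine ⟨fun h => e3 h.1, s, r, q, p, by rw [h4]; ring, by rw [h3]; ring, ?_⟩
        have h6 : ((p * s + q : ℕ) : ℤ) = ((q * r + r : ℕ) : ℤ) := by rw [h5]
        push_cast at h6
        linarith
      · rintro ⟨-, p, q, r, s, h3, h4, h5⟩
        refine ⟨s, r, q, p, by rw [h4]; ring, by rw [h3]; ring, ?_⟩
        have h6 : ((s * p + r : ℕ) : ℤ) = ((r * q + q : ℕ) : ℤ) := by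
          push_cast
          linarith
        exact_mod_cast h6
    · have e4 : b' - a' = 0 := by omega
      have e5 : ¬ (a' : ℤ) - b' < 0 := by omega
      have e6 : ((a' : ℤ) - b').natAbs = a' - b' := by omega
      rw [e1, e4, e2, e6, if_neg e5, if_neg e3]
      rw [show Fr 0 (b - a) (a' - b') 0 1 0 x y ↔ PII (b - a) (a' - b') x y from
        II_iff _ _ _ _]
      constructor
      · rintro ⟨p, q, r, s, h3, h4, h5⟩
        refine ⟨fun h => e3 h.1, p, q, r, s, h3, h4, ?_⟩
        have h6 : ((p * s : ℕ) : ℤ) = ((q * r + q + r : ℕ) : ℤ) := by rw [h5]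
        push_cast at h6
        linarith
      · rintro ⟨-, p, q, r, s, h3, h4, h5⟩
        refine ⟨p, q, r, s, h3, h4, ?_⟩
        have h6 : ((p * s : ℕ) : ℤ) = ((q * r + q + r : ℕ) : ℤ) := by
          push_cast
          linarith
        exact_mod_cast h6

/-- Classification when every factor interacts asymmetrically with at most one other factor. -/
theorem pairs {ι : Type} [Fintype ι] (n : ι → ℕ) (hn : ∀ i, 0 < n i)
    (m : Option ι → Option ι → ℕ)
    (hb : ∀ i j, m (some i) (some j) ≤ m (some j) (some i) + 1)
    (hp : ∀ i j k, m (some i) (some j) ≠ m (some j) (some i) →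
      m (some i) (some k) ≠ m (some k) (some i) → j = k) :
    IsAntiFrobenius (SqZero n m) ↔ (∀ a, Even (m a a)) ∧
      (∀ i, (∀ j, m (some i) (some j) = m (some j) (some i)) →
        ((m none (some i) : ℤ) - m (some i) none) ∣ n i) ∧
      (∀ i j, m (some i) (some j) = m (some j) (some i) + 1 →
        PairCond ((m none (some i) : ℤ) - m (some i) none)
          ((m none (some j) : ℤ) - m (some j) none) (n i) (n j)) := by
  classical
  rw [reduction hn]
  refine and_congr_right fun _ => ?_
  let r : Option ι → Option ι → ℕ := fun a b => m a b - m b a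
  have hr : ∀ a b, r a b = m a b - m b a := fun _ _ => rfl
  let A : ι → ι → Prop := fun i j => m (some i) (some j) ≠ m (some j) (some i)
  have hAs : ∀ i j, A i j → A j i := fun i j h => Ne.symm h
  let κ : ι → Set ι := fun i => {j | j = i ∨ A i j}
  have hκ : ∀ i j, A i j → κ i = κ j := by
    intro i j hij
    ext l
    constructor
    · rintro (rfl | h)
      · exact Or.inr (hAs _ _ hij)
      · exact Or.inl (hp i l j h hij)
    · rintro (rfl | h)
      · exact Or.inr hij
      · exact Or.inl (hp j l i h (hAs _ _ hij))
  have hmem : ∀ i, i ∈ κ i := fun i => Or.inl rfl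
  have hsep : ∀ i j, κ i ≠ κ j → r (some i) (some j) = 0 := by
    intro i j hij
    have h1 : m (some i) (some j) = m (some j) (some i) := by
      by_contra h
      exact hij (hκ i j h)
    rw [hr, h1, Nat.sub_self]
  have hdec := frob_decomp κ n r (Nat.sub_self _) hsep
  have hs : ∀ i, (∀ j, m (some i) (some j) = m (some j) (some i)) →
      (HasFrobeniusFunctional (SqZero (fun l : {l : ι // κ l = κ i} => n l.1)
        (fun a b => r (a.map Subtype.val) (b.map Subtype.val))) ↔
        ((m none (some i) : ℤ) - m (some i) none) ∣ n i) := by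
    intro i hi
    have hl : ∀ l : {l : ι // κ l = κ i}, l.1 = i := by
      rintro ⟨l, hl⟩
      have h1 : l ∈ κ i := hl ▸ hmem l
      rcases h1 with h1 | h1
      · exact h1
      · exact absurd (hi l) h1
    rw [star_frobenius]
    · constructor
      · intro h
        have h1 := h ⟨i, rfl⟩
        have h2 : (r (some i) none + r none (some i)) ∣ n i := h1
        rw [hr, hr] at h2
        rw [← Int.natAbs_dvd_natAbs, Int.natAbs_natCast]
        have e : ((m none (some i) : ℤ) - m (some i) none).natAbs =
            (m (some i) none - m none (some i)) + (m none (some i) - m (some i) none) := by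
          omega
        rw [e]
        exact h2
      · intro h l
        have hl1 : l.1 = i := hl l
        obtain ⟨l, hl2⟩ := l
        have hl3 : l = i := hl1
        subst hl3
        show (r (some l) none + r none (some l)) ∣ n l
        rw [hr, hr]
        rw [← Int.natAbs_dvd_natAbs, Int.natAbs_natCast] at h
        have e : ((m none (some l) : ℤ) - m (some l) none).natAbs =
            (m (some l) none - m none (some l)) + (m none (some l) - m (some l) none) := by
          omega
        rw [e] at h
        exact h
    · exact Nat.sub_self _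
    · rintro ⟨a, ha⟩ ⟨b, hb⟩
      have h1 : a = i := hl ⟨a, ha⟩
      have h2 : b = i := hl ⟨b, hb⟩
      show r (some a) (some b) = 0
      rw [h1, h2, hr, Nat.sub_self]
    · rintro ⟨a, ha⟩
      show r (some a) none = 0 ∨ r none (some a) = 0
      rw [hr, hr]
      omega
  have ht : ∀ i j, m (some i) (some j) = m (some j) (some i) + 1 →
      (HasFrobeniusFunctional (SqZero (fun l : {l : ι // κ l = κ i} => n l.1)
        (fun a b => r (a.map Subtype.val) (b.map Subtype.val))) ↔
        PairCond ((m none (some i) : ℤ) - m (some i) none)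
          ((m none (some j) : ℤ) - m (some j) none) (n i) (n j)) := by
    intro i j hij
    have hA : A i j := by
      show m (some i) (some j) ≠ m (some j) (some i)
      omega
    have hne : i ≠ j := by
      rintro rfl
      omega
    rw [fr_pair (⟨i, rfl⟩ : {l : ι // κ l = κ i}) ⟨j, (hκ i j hA).symm⟩
      (fun h => hne (congrArg Subtype.val h))
      (by
        rintro ⟨l, hl⟩
        have h1 : l ∈ κ i := hl ▸ hmem l
        rcases h1 with h1 | h1
        · exact Or.inl (Subtype.ext h1)
        · exact Or.inr (Subtype.ext (hp i l j h1 hA)))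
      _ _ (fun a => Nat.sub_self _)]
    rw [← fr_pairCond _ _ _ _ _ _ (hn i) (hn j)]
    show Fr (r none (some i)) (r (some i) none) (r none (some j)) (r (some j) none)
      (r (some i) (some j)) (r (some j) (some i)) (n i) (n j) ↔ _
    have e1 : r (some i) (some j) = 1 := by rw [hr, hij]; omega
    have e2 : r (some j) (some i) = 0 := by rw [hr, hij]; omega
    rw [e1, e2]
  rw [show HasFrobeniusFunctional (SqZero n (fun a b => m a b - m b a)) ↔ _ from hdec]
  constructor
  · intro h
    exact ⟨fun i hi => (hs i hi).1 (h (κ i)), fun i j hij => (ht i j hij).1 (h (κ i))⟩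
  · rintro ⟨h1, h2⟩ k
    by_cases hk : ∃ i, κ i = k
    · obtain ⟨i, rfl⟩ := hk
      by_cases hi : ∀ j, m (some i) (some j) = m (some j) (some i)
      · exact (hs i hi).2 (h1 i hi)
      · push Not at hi
        obtain ⟨j, hj⟩ := hi
        have h3 := hb i j
        have h4 := hb j i
        rcases Nat.lt_or_ge (m (some i) (some j)) (m (some j) (some i)) with h5 | h5
        · have h6 : m (some j) (some i) = m (some i) (some j) + 1 := by omega
          rw [hκ i j hj]
          exact (ht j i h6).2 (h2 j i h6)
        · have h6 : m (some i) (some j) = m (some j) (some i) + 1 := by omega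
          exact (ht i j h6).2 (h2 i j h6)
    · have hemp : IsEmpty {l : ι // κ l = k} := ⟨fun l => hk ⟨l.1, l.2⟩⟩
      rw [star_frobenius]
      · exact fun l => hemp.elim l
      · exact Nat.sub_self _
      · exact fun l => hemp.elim l
      · exact fun l => hemp.elim l

end Pool.Agent.AFM
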