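import Pool.Agent.AFM.Final
import Pool.Agent.Helper29.AntiFrob.StarFinal

/-!
# Two simple factors: the moves
-/

set_option autoImplicit false

namespace Pool.Agent.AFM

open Pool.Agent.Helper29.AntiFrob

/-- multiplicities for two factors -/
def MM (c1 c2 d1 d2 e1 e2 : ℕ) : Option (Fin 2) → Option (Fin 2) → ℕ
  | none, none => 0
  | none, some i => if i = 0 then c1 else d1
  | some i, none => if i = 0 then c2 else d2
  | some i, some j => if i = j then 0 else if i = 0 then e1 else e2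

/-- the Frobenius property for two factors -/
def Fr (c1 c2 d1 d2 e1 e2 n1 n2 : ℕ) : Prop :=
  HasFrobeniusFunctional (SqZero (![n1, n2] : Fin 2 → ℕ) (MM c1 c2 d1 d2 e1 e2))

lemma fr_of (n : Fin 2 → ℕ) (m : Option (Fin 2) → Option (Fin 2) → ℕ) (hd : ∀ a, m a a = 0) :
    HasFrobeniusFunctional (SqZero n m) ↔ Fr (m none (some 0)) (m (some 0) none)
      (m none (some 1)) (m (some 1) none) (m (some 0) (some 1)) (m (some 1) (some 0))
      (n 0) (n 1) := by
  have h1 : (![n 0, n 1] : Fin 2 → ℕ) = n := by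
    funext j
    fin_cases j <;> rfl
  have h2 : MM (m none (some 0)) (m (some 0) none)
      (m none (some 1)) (m (some 1) none) (m (some 0) (some 1)) (m (some 1) (some 0)) = m := by
    funext a b
    rcases a with _ | i
    · rcases b with _ | j
      · exact (hd none).symm
      · fin_cases j <;> rfl
    · rcases b with _ | j
      · fin_cases i <;> rfl
      · fin_cases i <;> fin_cases j
        · exact (hd (some 0)).symm
        · rfl
        · rfl
        · exact (hd (some 1)).symm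
  unfold Fr
  rw [h1, h2]

/-- exchange of the two factors -/
def swapO : Option (Fin 2) → Option (Fin 2)
  | none => none
  | some i => if i = 0 then some 1 else some 0

lemma swapO_inv : Function.Involutive swapO := by
  unfold Function.Involutive
  decide

lemma fr_swap (c1 c2 d1 d2 e1 e2 n1 n2 : ℕ) :
    Fr c1 c2 d1 d2 e1 e2 n1 n2 ↔ Fr d1 d2 c1 c2 e2 e1 n2 n1 := by
  unfold Fr
  rw [frobG_iff, frobG_iff]
  refine FrobG.transport_iff (swapO_inv.toPerm swapO) ?_ ?_ ?_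
  · intro a
    show a = none ↔ swapO a = none
    revert a
    decide
  · intro a
    rw [Module.finrank_fin_fun, Module.finrank_fin_fun]
    rcases a with _ | i
    · rfl
    · fin_cases i <;> rfl
  · intro a b
    rw [Fintype.card_fin, Fintype.card_fin]
    rcases a with _ | i
    · rcases b with _ | j
      · rfl
      · fin_cases j <;> rfl
    · rcases b with _ | j
      · fin_cases i <;> rfl
      · fin_cases i <;> fin_cases j <;> rfl

lemma fr_op (c1 c2 d1 d2 e1 e2 n1 n2 : ℕ) :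
    Fr c1 c2 d1 d2 e1 e2 n1 n2 ↔ Fr c2 c1 d2 d1 e2 e1 n1 n2 := by
  unfold Fr
  rw [frobenius_op_iff]
  have h : (fun a b => MM c1 c2 d1 d2 e1 e2 b a) = MM c2 c1 d2 d1 e2 e1 := by
    funext a b
    rcases a with _ | i
    · rcases b with _ | j
      · rfl
      · fin_cases j <;> rfl
    · rcases b with _ | j
      · fin_cases i <;> rfl
      · fin_cases i <;> fin_cases j <;> rfl
  rw [h]

lemma sum_opt2 (f : Option (Fin 2) → ℕ) (n1 n2 : ℕ) :
    ∑ b, f b * size (![n1, n2] : Fin 2 → ℕ) b = f none + (f (some 0) * n1 + f (some 1) * n2) := by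
  rw [Fintype.sum_option, Fin.sum_univ_two]
  simp [size]

lemma upd0 (n1 n2 k : ℕ) : Function.update (![n1, n2] : Fin 2 → ℕ) 0 k = ![k, n2] := by
  funext j
  fin_cases j <;> simp

/-- moves at the first factor -/
lemma fr_moves (c1 c2 d1 d2 e1 e2 n1 n2 : ℕ) :
    (∀ w, Fr c1 c2 d1 d2 e1 e2 (c2 + e1 * n2 + w) n2 ↔
      Fr c1 c2 d1 d2 e1 e2 (c1 + e2 * n2 + w) n2) ∧
    (n1 = c1 + e2 * n2 ∨ n1 = c2 + e1 * n2 → c1 * c2 = 0 → e1 * e2 = 0 →
      (d2 + e2 * c2 = 0 ∨ d1 + c1 * e1 = 0) → (Fr c1 c2 d1 d2 e1 e2 n1 n2 ↔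
        (d2 + e2 * c2 + (d1 + c1 * e1)) ∣ n2)) ∧
    (c1 + e2 * n2 = c2 + e1 * n2 → c1 + e2 * n2 < n1 → ¬ Fr c1 c2 d1 d2 e1 e2 n1 n2) := by
  have hu : c1 + e2 * n2 = ∑ b, MM c1 c2 d1 d2 e1 e2 b (some 0) *
      size (![n1, n2] : Fin 2 → ℕ) b := by
    rw [sum_opt2]
    simp [MM]
  have hv : c2 + e1 * n2 = ∑ b, MM c1 c2 d1 d2 e1 e2 (some 0) b *
      size (![n1, n2] : Fin 2 → ℕ) b := by
    rw [sum_opt2]
    simp [MM]
  obtain ⟨h1, h2, h3⟩ := moves_fr (0 : Fin 2) (![n1, n2] : Fin 2 → ℕ) (MM c1 c2 d1 d2 e1 e2)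
    rfl _ _ hu hv
  refine ⟨?_, ?_, ?_⟩
  · intro w
    have h4 := h1 w
    rw [upd0, upd0] at h4
    exact h4
  · intro hn hc he hd
    have h4 := h2 hn
    unfold Fr
    rw [h4, star_frobenius]
    · constructor
      · intro h5
        have h6 := h5 ⟨1, by decide⟩
        exact h6
      · rintro h5 ⟨j, hj⟩
        have hj1 : j = 1 := by
          fin_cases j
          · exact absurd rfl hj
          · rfl
        subst hj1
        exact h5
    · show 0 + c1 * c2 = 0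
      rw [hc]
    · rintro ⟨i, hi⟩ ⟨j, hj⟩
      have hi1 : i = 1 := by
        fin_cases i
        · exact absurd rfl hi
        · rfl
      have hj1 : j = 1 := by
        fin_cases j
        · exact absurd rfl hj
        · rfl
      subst hi1 hj1
      show 0 + e2 * e1 = 0
      rw [mul_comm, he]
    · rintro ⟨j, hj⟩
      have hj1 : j = 1 := by
        fin_cases j
        · exact absurd rfl hj
        · rfl
      subst hj1
      exact hd
  · intro h4 h5
    exact h3 h4 h5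

/-- castling at a first factor which is a source -/
lemma fr_source (c2 d1 d2 e1 n1 n2 : ℕ) :
    (c2 + e1 * n2 ≤ n1 → (Fr 0 c2 d1 d2 e1 0 n1 n2 ↔
      Fr 0 c2 d1 d2 e1 0 (n1 - (c2 + e1 * n2)) n2)) ∧
    (n1 ≤ c2 + e1 * n2 → (Fr 0 c2 d1 d2 e1 0 n1 n2 ↔
      Fr c2 0 d1 d2 0 e1 (c2 + e1 * n2 - n1) n2)) := by
  have hv : ∑ b, MM 0 c2 d1 d2 e1 0 (some 0) b * size (![n1, n2] : Fin 2 → ℕ) b =
      c2 + e1 * n2 := by
    rw [sum_opt2]
    simp [MM]
  obtain ⟨h1, h2⟩ := castle_out (0 : Fin 2) (![n1, n2] : Fin 2 → ℕ) (MM 0 c2 d1 d2 e1 0)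
    (by
      intro b
      rcases b with _ | j
      · rfl
      · fin_cases j <;> rfl)
  rw [hv] at h1 h2
  refine ⟨?_, ?_⟩
  · intro hle
    have h3 := h1 hle
    rw [upd0] at h3
    exact h3
  · intro hle
    have h3 := h2 hle
    rw [upd0] at h3
    have h4 : swapAt (0 : Fin 2) (MM 0 c2 d1 d2 e1 0) = MM c2 0 d1 d2 0 e1 := by
      funext a b
      rcases a with _ | i
      · rcases b with _ | j
        · rfl
        · fin_cases j <;> rfl
      · rcases b with _ | j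
        · fin_cases i <;> rfl
        · fin_cases i <;> fin_cases j <;> rfl
    rw [h4] at h3
    exact h3

/-- castling at a first factor which is a sink -/
lemma fr_sink (c1 d1 d2 e2 n1 n2 : ℕ) :
    (c1 + e2 * n2 ≤ n1 → (Fr c1 0 d1 d2 0 e2 n1 n2 ↔
      Fr c1 0 d1 d2 0 e2 (n1 - (c1 + e2 * n2)) n2)) ∧
    (n1 ≤ c1 + e2 * n2 → (Fr c1 0 d1 d2 0 e2 n1 n2 ↔
      Fr 0 c1 d1 d2 e2 0 (c1 + e2 * n2 - n1) n2)) := by
  obtain ⟨h1, h2⟩ := fr_source c1 d2 d1 e2 n1 n2
  refine ⟨?_, ?_⟩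
  · intro hle
    rw [fr_op, h1 hle, fr_op]
  · intro hle
    rw [fr_op, h2 hle, fr_op]

/-- the obstruction at the first factor -/
lemma fr_le (c1 c2 d1 d2 e1 e2 n1 n2 : ℕ) (h0 : 0 < n1) (h : Fr c1 c2 d1 d2 e1 e2 n1 n2) :
    c1 ≤ n1 ∧ c2 ≤ n1 :=
  frob_le (![n1, n2] : Fin 2 → ℕ) (MM c1 c2 d1 d2 e1 e2) 0 h0 h

end Pool.Agent.AFM
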