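import Pool.Agent.AFM.Two

/-!
# Two simple factors joined by one arrow: the classification
-/

set_option autoImplicit false

namespace Pool.Agent.AFM

open Pool.Agent.Helper29.AntiFrob

/-- type I: the extra vertex is a source -/
abbrev FI (c d n1 n2 : ℕ) : Prop := Fr c 0 d 0 1 0 n1 n2

/-- type II: the extra vertex is in the middle -/
abbrev FII (c d n1 n2 : ℕ) : Prop := Fr 0 c d 0 1 0 n1 n2

/-- type III: the extra vertex is a sink -/
abbrev FIII (c d n1 n2 : ℕ) : Prop := Fr 0 c 0 d 1 0 n1 n2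

lemma III_iff (c d n1 n2 : ℕ) : FIII c d n1 n2 ↔ FI d c n2 n1 := by
  unfold FIII FI
  rw [fr_op, fr_swap]

lemma I_sub (c d n1 n2 : ℕ) (h : d + n1 ≤ n2) : FI c d n1 n2 ↔ FI c d n1 (n2 - (d + n1)) := by
  unfold FI
  have h1 := (fr_sink d c 0 1 n2 n1).1 (by omega)
  rw [one_mul] at h1
  rw [fr_swap, h1, fr_swap]

lemma I_flip (c d n1 n2 : ℕ) (h : n2 ≤ d + n1) : FI c d n1 n2 ↔ FII d c (d + n1 - n2) n1 := by
  unfold FI FII
  have h1 := (fr_sink d c 0 1 n2 n1).2 (by omega)
  rw [one_mul] at h1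
  rw [fr_swap, h1]

lemma II_sub2 (c d n1 n2 : ℕ) (h : d + n1 ≤ n2) :
    FII c d n1 n2 ↔ FII c d n1 (n2 - (d + n1)) := by
  unfold FII
  have h1 := (fr_sink d 0 c 1 n2 n1).1 (by omega)
  rw [one_mul] at h1
  rw [fr_swap, h1, fr_swap]

lemma II_sub1 (c d n1 n2 : ℕ) (h : c + n2 ≤ n1) :
    FII c d n1 n2 ↔ FII c d (n1 - (c + n2)) n2 := by
  unfold FII
  have h1 := (fr_source c d 0 1 n1 n2).1 (by omega)
  rw [one_mul] at h1
  exact h1

lemma II_flip (c d n1 n2 : ℕ) (h : n2 ≤ d + n1) :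
    FII c d n1 n2 ↔ FI c d n1 (d + n1 - n2) := by
  have h1 := (fr_sink d 0 c 1 n2 n1).2 (by omega)
  rw [one_mul] at h1
  have h2 : FII c d n1 n2 ↔ FIII d c (d + n1 - n2) n1 := by
    unfold FII FIII
    rw [fr_swap, h1]
  rw [h2, III_iff]

lemma I_del (c d n1 n2 : ℕ) (h : n1 = c ∨ n1 = n2) : FI c d n1 n2 ↔ (c + d) ∣ n2 := by
  have h1 := (fr_moves c 0 d 0 1 0 n1 n2).2.1 (by omega) (mul_zero _) rfl (Or.inl rfl)
  have e : 0 + 0 * 0 + (d + c * 1) = c + d := by ring
  rw [e] at h1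
  exact h1

lemma I_shift (c d n2 w : ℕ) : FI c d (n2 + w) n2 ↔ FI c d (c + w) n2 := by
  have h1 := (fr_moves c 0 d 0 1 0 0 n2).1 w
  have e1 : 0 + 1 * n2 + w = n2 + w := by ring
  have e2 : c + 0 * n2 + w = c + w := by ring
  rw [e1, e2] at h1
  exact h1

lemma I_never (c d n1 : ℕ) (h : c < n1) : ¬ FI c d n1 c :=
  (fr_moves c 0 d 0 1 0 n1 c).2.2 (by omega) (by omega)

lemma I_zero (c d n1 : ℕ) : FI c d n1 0 ↔ c ∣ n1 := by
  unfold FI
  rw [fr_swap]
  have h1 := (fr_moves d 0 c 0 0 1 0 n1).2.1 (by omega) (mul_zero _) rfl (Or.inl rfl)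
  have e : 0 + 1 * 0 + (c + d * 0) = c := by ring
  rw [e] at h1
  exact h1

lemma I_no_arrow (c n2 : ℕ) (h : 0 < n2) : ¬ FI c 0 0 n2 := by
  unfold FI
  rw [fr_swap]
  exact (fr_moves 0 0 c 0 0 1 n2 0).2.2 (by omega) (by omega)

lemma II_zero1 (c d n2 : ℕ) : FII c d 0 n2 ↔ d ∣ n2 := by
  have h1 := (fr_moves 0 c d 0 1 0 0 n2).2.1 (by omega) (zero_mul _) rfl (Or.inl (by ring))
  have e : 0 + 0 * c + (d + 0 * 1) = d := by ring
  rw [e] at h1
  exact h1

lemma II_zero2 (c d n1 : ℕ) : FII c d n1 0 ↔ c ∣ n1 := by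
  unfold FII
  rw [fr_swap]
  have h1 := (fr_moves d 0 0 c 0 1 0 n1).2.1 (by omega) (mul_zero _) rfl (Or.inr (by ring))
  have e : c + 1 * 0 + (0 + d * 0) = c := by ring
  rw [e] at h1
  exact h1

/-- the stuck region -/
lemma I_stuck (c d m : ℕ) (hm : 0 < m) (hlt : m < c + d) : ∀ n1, 0 < n1 → ¬ FI c d n1 m := by
  intro n1
  induction n1 using Nat.strong_induction_on with
  | _ n1 ih =>
    intro hn h
    have h1 : c ≤ n1 := (fr_le _ _ _ _ _ _ _ _ hn h).1
    by_cases h2 : n1 = c ∨ n1 = m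
    · rw [I_del c d n1 m h2] at h
      exact absurd (Nat.le_of_dvd hm h) (by omega)
    · rw [not_or] at h2
      rcases lt_trichotomy c m with h3 | h3 | h3
      · rcases lt_or_gt_of_ne h2.2 with h4 | h4
        · rw [I_flip c d n1 m (by omega)] at h
          have h5 := (fr_le _ _ _ _ _ _ _ _ (by omega) h).2
          omega
        · obtain ⟨w, hw⟩ := Nat.exists_eq_add_of_le h4.le
          rw [hw, I_shift] at h
          exact ih (c + w) (by omega) (by omega) h
      · subst h3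
        exact I_never c d n1 (by omega) h
      · obtain ⟨w, hw⟩ := Nat.exists_eq_add_of_le h1
        rw [hw, ← I_shift] at h
        exact ih (m + w) (by omega) (by omega) h

/-- numbers of type I -/
def PI (c d n1 n2 : ℕ) : Prop :=
  ∃ p q r s : ℕ, n1 = p * c + q * d ∧ n2 = r * c + s * d ∧ p * s + q = q * r + r

/-- numbers of type II -/
def PII (c d n1 n2 : ℕ) : Prop :=
  ∃ p q r s : ℕ, n1 = p * c + q * d ∧ n2 = r * c + s * d ∧ p * s = q * r + q + r

lemma sl_cases (p q r s : ℕ) (h : p * s = q * r + q + r) :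
    (s ≤ q ∧ r + 1 ≤ p) ∨ (p ≤ r ∧ q + 1 ≤ s) ∨ (p = 0 ∧ q = 0 ∧ r = 0 ∧ s = 0) := by
  rcases Nat.lt_or_ge q s with h1 | h1
  · right; left
    refine ⟨?_, h1⟩
    by_contra h2
    have h3 : (r + 1) * (q + 1) ≤ p * s := Nat.mul_le_mul (by omega) h1
    nlinarith
  · rcases Nat.lt_or_ge r p with h2 | h2
    · exact Or.inl ⟨h1, h2⟩
    · have h3 : p * s ≤ r * q := Nat.mul_le_mul h2 h1
      have h4 : r * q = q * r := mul_comm _ _
      have h5 : q = 0 := by omega
      have h6 : r = 0 := by omega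
      right; right
      omega

lemma II_of_PII (c d : ℕ) : ∀ (k p q r s : ℕ), p + q + r + s = k → p * s = q * r + q + r →
    FII c d (p * c + q * d) (r * c + s * d) := by
  intro k
  induction k using Nat.strong_induction_on with
  | _ k ih =>
    intro p q r s hk h
    rcases sl_cases p q r s h with ⟨h1, h2⟩ | ⟨h1, h2⟩ | ⟨h1, h2, h3, h4⟩
    · obtain ⟨p', rfl⟩ := Nat.exists_eq_add_of_le h2
      obtain ⟨q', rfl⟩ := Nat.exists_eq_add_of_le h1
      have e : (r + 1 + p') * c + (s + q') * d = (c + (r * c + s * d)) + (p' * c + q' * d) := by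
        ring
      rw [II_sub1 _ _ _ _ (by rw [e]; omega), e, Nat.add_sub_cancel_left]
      exact ih (p' + q' + r + s) (by omega) p' q' r s rfl (by nlinarith)
    · obtain ⟨r', rfl⟩ := Nat.exists_eq_add_of_le h1
      obtain ⟨s', rfl⟩ := Nat.exists_eq_add_of_le h2
      have e : (p + r') * c + (q + 1 + s') * d = (d + (p * c + q * d)) + (r' * c + s' * d) := by
        ring
      rw [II_sub2 _ _ _ _ (by rw [e]; omega), e, Nat.add_sub_cancel_left]
      exact ih (p + q + r' + s') (by omega) p q r' s' rfl (by nlinarith)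
    · subst h1 h2 h3 h4
      simp only [zero_mul, add_zero]
      rw [II_zero1]
      exact dvd_zero _

lemma PII_of_II (c d : ℕ) : ∀ (k n1 n2 : ℕ), n1 + n2 = k → FII c d n1 n2 → PII c d n1 n2 := by
  intro k
  induction k using Nat.strong_induction_on with
  | _ k ih =>
    intro n1 n2 hk h
    rcases Nat.eq_zero_or_pos n1 with rfl | h1
    · rw [II_zero1] at h
      obtain ⟨t, rfl⟩ := h
      exact ⟨0, 0, 0, t, by ring, by ring, by ring⟩
    rcases Nat.eq_zero_or_pos n2 with rfl | h2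
    · rw [II_zero2] at h
      obtain ⟨t, rfl⟩ := h
      exact ⟨t, 0, 0, 0, by ring, by ring, by ring⟩
    rcases Nat.lt_or_ge n1 (c + n2) with h3 | h3
    · rcases Nat.lt_or_ge n2 (d + n1) with h4 | h4
      · exfalso
        rw [II_flip c d n1 n2 h4.le] at h
        exact I_stuck c d (d + n1 - n2) (by omega) (by omega) n1 h1 h
      · rw [II_sub2 c d n1 n2 h4] at h
        obtain ⟨p, q, r, s, e1, e2, e3⟩ := ih (n1 + (n2 - (d + n1))) (by omega) _ _ rfl h
        refine ⟨p, q, p + r, q + 1 + s, e1, ?_, by nlinarith⟩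
        have e4 : n2 = (d + n1) + (r * c + s * d) := by rw [← e2]; omega
        rw [e4, e1]
        ring
    · rw [II_sub1 c d n1 n2 h3] at h
      obtain ⟨p, q, r, s, e1, e2, e3⟩ := ih (n1 - (c + n2) + n2) (by omega) _ _ rfl h
      refine ⟨r + 1 + p, s + q, r, s, ?_, e2, by nlinarith⟩
      have e4 : n1 = (c + n2) + (p * c + q * d) := by rw [← e1]; omega
      rw [e4, e2]
      ring

theorem II_iff (c d n1 n2 : ℕ) : FII c d n1 n2 ↔ PII c d n1 n2 := by
  constructor
  · exact PII_of_II c d _ n1 n2 rfl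
  · rintro ⟨p, q, r, s, rfl, rfl, h⟩
    exact II_of_PII c d _ p q r s rfl h

lemma I_of_PI (c d : ℕ) : ∀ (s p q r : ℕ), p * s + q = q * r + r →
    FI c d (p * c + q * d) (r * c + s * d) := by
  intro s
  induction s using Nat.strong_induction_on with
  | _ s ih =>
    intro p q r h
    rcases Nat.lt_or_ge q s with h1 | h1
    · have h2 : p ≤ r := by
        by_contra h2
        have h3 : (r + 1) * (q + 1) ≤ p * s := Nat.mul_le_mul (by omega) h1
        nlinarith
      obtain ⟨r', rfl⟩ := Nat.exists_eq_add_of_le h2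
      obtain ⟨s', hs'⟩ := Nat.exists_eq_add_of_le (show q + 1 ≤ s from h1)
      subst hs'
      have e : (p + r') * c + (q + 1 + s') * d = (d + (p * c + q * d)) + (r' * c + s' * d) := by
        ring
      rw [I_sub _ _ _ _ (by rw [e]; omega), e, Nat.add_sub_cancel_left]
      exact ih s' (by omega) p q r' (by nlinarith)
    · have h2 : r ≤ p := by
        by_contra h2
        have h3 : (p + 1) * (q + 1) ≤ r * (q + 1) := Nat.mul_le_mul (by omega) le_rfl
        have h4 : p * s ≤ p * q := Nat.mul_le_mul le_rfl h1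
        nlinarith
      obtain ⟨b, rfl⟩ := Nat.exists_eq_add_of_le h2
      obtain ⟨a, rfl⟩ := Nat.exists_eq_add_of_le h1
      have hle : r * c + s * d ≤ d + ((r + b) * c + (s + a) * d) := by nlinarith
      rw [I_flip _ _ _ _ hle, II_iff]
      refine ⟨a + 1, b, s + a, r + b, ?_, by ring, by nlinarith⟩
      have e : d + ((r + b) * c + (s + a) * d) = (r * c + s * d) + ((a + 1) * d + b * c) := by
        ring
      rw [e, Nat.add_sub_cancel_left]

lemma PI_of_I (c d n1 : ℕ) : ∀ n2, FI c d n1 n2 → PI c d n1 n2 := by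
  intro n2
  induction n2 using Nat.strong_induction_on with
  | _ n2 ih =>
    intro h
    rcases Nat.eq_zero_or_pos n2 with rfl | h2
    · rw [I_zero] at h
      obtain ⟨t, rfl⟩ := h
      exact ⟨t, 0, 0, 0, by ring, by ring, by ring⟩
    rcases Nat.lt_or_ge n2 (d + n1) with h3 | h3
    · rw [I_flip c d n1 n2 h3.le, II_iff] at h
      obtain ⟨p, q, r, s, e1, e2, e3⟩ := h
      rcases sl_cases p q r s e3 with ⟨h4, h5⟩ | ⟨h4, h5⟩ | ⟨h4, h5, h6, h7⟩
      · exfalso
        have h6 : (r + 1) * d ≤ p * d := Nat.mul_le_mul h5 le_rfl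
        have h7 : s * c ≤ q * c := Nat.mul_le_mul h4 le_rfl
        have h8 : (r + 1) * d = r * d + d := by ring
        omega
      · obtain ⟨a, rfl⟩ := Nat.exists_eq_add_of_le h4
        obtain ⟨b, hb⟩ := Nat.exists_eq_add_of_le h5
        subst hb
        refine ⟨q + 1 + b, p + a, 1 + b, a + 1, by rw [e2]; ring, ?_, by nlinarith⟩
        have e4 : n2 = d + n1 - (p * d + q * c) := by omega
        have e5 : d + n1 = (p * d + q * c) + ((1 + b) * c + (a + 1) * d) := by
          rw [e2]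
          ring
        rw [e4, e5, Nat.add_sub_cancel_left]
      · exfalso
        rw [h4, h5] at e1
        omega
    · rcases Nat.eq_zero_or_pos (d + n1) with h4 | h4
      · exfalso
        obtain ⟨rfl, rfl⟩ : d = 0 ∧ n1 = 0 := by omega
        exact I_no_arrow c n2 h2 h
      · rw [I_sub c d n1 n2 h3] at h
        obtain ⟨p, q, r, s, e1, e2, e3⟩ := ih (n2 - (d + n1)) (by omega) h
        refine ⟨p, q, p + r, q + 1 + s, e1, ?_, by nlinarith⟩
        have e4 : n2 = (d + n1) + (r * c + s * d) := by rw [← e2]; omega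
        rw [e4, e1]
        ring

theorem I_iff (c d n1 n2 : ℕ) : FI c d n1 n2 ↔ PI c d n1 n2 := by
  constructor
  · exact PI_of_I c d n1 n2
  · rintro ⟨p, q, r, s, rfl, rfl, h⟩
    exact I_of_PI c d s p q r h

theorem III_iff' (c d n1 n2 : ℕ) : FIII c d n1 n2 ↔ PI d c n2 n1 := by
  rw [III_iff, I_iff]

end Pool.Agent.AFM
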